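import Mathlib

/-!
CYL, part B (reality of the roots), definitions (notation of note 3181 on MP_8c6f77_pr).

`la = pi / 8` (real).  `2 p` sites with inhomogeneities `U = (w, -w, w, -w, ...)`,
`0 ≤ w < la`; `l = 1, 2` through-legs; `m = 2 p - l`.
-/

namespace Pool.Agent.CYL.B

open Filter Topology Finset

/-- `lam = pi / 8` as a real number. -/
noncomputable def la : ℝ := Real.pi / 8

/-- `th a y = 2 arctan (cot a * tanh y)`: twice the argument of `sin (a + i y)`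
(`0 < a < pi`). -/
noncomputable def th (a y : ℝ) : ℝ :=
  2 * Real.arctan (Real.cos a / Real.sin a * Real.tanh y)

/-- `Th = th_(2 lam) - th_lam`. -/
noncomputable def Th (y : ℝ) : ℝ := th (2 * la) y - th la y

/-- The counting function `Z_n` of the homogeneous system with `n` sites and roots `i v_j`. -/
noncomputable def ZH (n : ℕ) {m : ℕ} (v : Fin m → ℝ) (y : ℝ) : ℝ :=
  n * th la y - ∑ j, Th (y - v j)

/-- The counting function `Z_w` of the system with `2 p` sites, `U = (w, -w, w, -w, ...)`. -/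
noncomputable def ZW (p : ℕ) (w : ℝ) {m : ℕ} (v : Fin m → ℝ) (y : ℝ) : ℝ :=
  p * (th (la - w) y + th (la + w) y) - ∑ j, Th (y - v j)

/-- `ff p w u = prod_k sin (u - U_k)`, `U = (w, -w, w, -w, ...)`, `2 p` sites. -/
noncomputable def ff (p : ℕ) (w : ℝ) (u : ℂ) : ℂ :=
  (Complex.sin (u - w) * Complex.sin (u + w)) ^ p

/-- Product form `pr c v u = c prod_j sin (u - i v_j)`. -/
noncomputable def pr {m : ℕ} (c : ℝ) (v : Fin m → ℝ) (u : ℂ) : ℂ :=
  c * ∏ j, Complex.sin (u - Complex.I * v j)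

/-- Trigonometric polynomial `tp m c u = sum_(j ≤ m) c_j e^(i (2 j - m) u)`. -/
noncomputable def tp (m : ℕ) (c : ℕ → ℂ) (u : ℂ) : ℂ :=
  ∑ j ∈ range (m + 1), c j * Complex.exp (Complex.I * ((2 * j : ℂ) - m) * u)

/-- `HB n m q`: the statement `H(n)` for the homogeneous system with `n` sites
(`m = n - l`): `q` is a real multiple of `prod_j sin (u - i v_j)` with
`v_1 < ... < v_m` real, symmetric, and `Z_n (v_j) = 2 pi (j - (m + 1) / 2)`, `j = 1, ..., m`. -/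
def HB (n m : ℕ) (q : ℂ → ℂ) : Prop :=
  ∃ (c : ℝ) (v : Fin m → ℝ), c ≠ 0 ∧ StrictMono v ∧ (∀ j, v (Fin.rev j) = - v j) ∧
    (∀ u, q u = pr c v u) ∧
    ∀ j : Fin m, ZH n v (v j) = Real.pi * (2 * (j : ℕ) + 1 - m)

/-- `GW p m w q`: the same statement for `2 p` sites, `U = (w, -w, w, -w, ...)`. -/
def GW (p m : ℕ) (w : ℝ) (q : ℂ → ℂ) : Prop :=
  ∃ (c : ℝ) (v : Fin m → ℝ), c ≠ 0 ∧ StrictMono v ∧ (∀ j, v (Fin.rev j) = - v j) ∧
    (∀ u, q u = pr c v u) ∧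
    ∀ j : Fin m, ZW p w v (v j) = Real.pi * (2 * (j : ℕ) + 1 - m)

/-- What parts A and PF deliver for `2 p` sites, `U = (w, -w, ...)`, `0 ≤ w < lam`:
`q w u = sum_m psi_w(m) Om_u(m)` and the eigenvalue `T w u = t_w(u)`. -/
structure BData (p m l : ℕ) where
  /-- the function `q_w` -/
  q : ℝ → ℂ → ℂ
  /-- the eigenvalue `t_w` -/
  T : ℝ → ℂ → ℂ
  hm : 2 * p = m + l
  hl : l = 1 ∨ l = 2
  hp : l ≤ p
  /-- `q_w` is a trigonometric polynomial of degree exactly `m` -/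
  q_tp : ∀ w ∈ Set.Ico 0 la, ∃ c : ℕ → ℂ, c m ≠ 0 ∧ ∀ u, q w u = tp m c u
  /-- continuity in `w` -/
  q_cont : ∀ u, ContinuousOn (fun w => q w u) (Set.Ico 0 la)
  /-- reality -/
  q_conj : ∀ w ∈ Set.Ico 0 la, ∀ u, (starRingEnd ℂ) (q w u) = q w ((starRingEnd ℂ) u)
  /-- mirror symmetry -/
  q_neg : ∀ w ∈ Set.Ico 0 la, ∀ u, q w (-u) = (-1) ^ m * q w u
  /-- the T-Q equation -/
  tq : ∀ w ∈ Set.Ico 0 la, ∀ u : ℂ,
    T w u * q w (u - la) * q w (u - 2 * la) =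
      (-1) ^ l * (ff p w (u - 2 * la) * ff p w (u - 3 * la)) * q w (u + la) * q w (u - 2 * la)
      + (ff p w u * ff p w (u - 3 * la)) * q w u * q w (u - 3 * la)
      + (-1) ^ l * (ff p w u * ff p w (u - la)) * q w (u - 4 * la) * q w (u - la)

/-- What part PF delivers about the limit `w → lam` (fusion), with `qh` the function `q` of
the homogeneous system with `p` sites. -/
def BLim {p m l : ℕ} (D : BData p m l) (qh : ℂ → ℂ) : Prop :=
  ∃ (w : ℕ → ℝ) (κ : ℝ), (∀ n, w n ∈ Set.Ico 0 la) ∧ Tendsto w atTop (𝓝 la) ∧ κ ≠ 0 ∧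
    (∀ u, Tendsto (fun n => D.q (w n) u) atTop (𝓝 (κ * Complex.sin u ^ p * qh u))) ∧
    ∃ δ > 0, ∃ c0 > 0, ∀ᶠ n in atTop, ∀ u : ℂ, ‖u - la‖ ≤ δ → c0 ≤ ‖D.T (w n) u‖

end Pool.Agent.CYL.B
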