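import Mathlib
import Pool.Agent.CYL.B.Def

/-!
# CYL, part B: trigonometric polynomials with real zeros (helper32)

`tp m c u = ∑_{j ≤ m} c_j e^{i (2 j - m) u}`.
`fa_factor`: if `c_m ≠ 0` and the `m` distinct real numbers `y_j` satisfy `tp m c (i y_j) = 0`, then
`tp m c u = c_m (2 i)^m e^{-∑ y_j} ∏ sin (u - i y_j)`.
`fa_bound`: the real zeros are bounded in terms of the coefficients.
`fa_sign`: sign changes of `∏ sinh (y - y_j)`.
-/

namespace Pool.Agent.CYL.B

open Complex

/-- the polynomial -/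
noncomputable def fa_P (m : ℕ) (c : ℕ → ℂ) : Polynomial ℂ :=
  ∑ j ∈ Finset.range (m + 1), Polynomial.C (c j) * Polynomial.X ^ j

theorem fa_eq (m : ℕ) (c : ℕ → ℂ) (u : ℂ) :
    tp m c u = exp (-(I * m * u)) * (fa_P m c).eval (exp (2 * I * u)) := by
  rw [tp, fa_P, Polynomial.eval_finsetSum, Finset.mul_sum]
  refine Finset.sum_congr rfl fun j _ => ?_
  rw [Polynomial.eval_mul, Polynomial.eval_C, Polynomial.eval_pow, Polynomial.eval_X, ← Complex.exp_nat_mul]
  rw [show exp (-(I * m * u)) * (c j * exp (j * (2 * I * u))) =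
    c j * (exp (-(I * m * u)) * exp (j * (2 * I * u))) by ring, ← Complex.exp_add]
  congr 2
  ring

theorem fa_P_coeff (m : ℕ) (c : ℕ → ℂ) (k : ℕ) : (fa_P m c).coeff k = if k ≤ m then c k else 0 := by
  rw [fa_P, Polynomial.finsetSum_coeff]
  simp only [Polynomial.coeff_C_mul_X_pow]
  rw [Finset.sum_ite_eq (Finset.range (m + 1)) k c]
  simp

theorem fa_P_degree {m : ℕ} {c : ℕ → ℂ} (hc : c m ≠ 0) : (fa_P m c).degree = m := by
  refine le_antisymm ?_ ?_
  · rw [Polynomial.degree_le_iff_coeff_zero]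
    intro k hk
    rw [fa_P_coeff, if_neg]
    exact not_le.mpr (by exact_mod_cast hk)
  · refine Polynomial.le_degree_of_ne_zero ?_
    rw [fa_P_coeff, if_pos le_rfl]
    exact hc

theorem fa_P_lead {m : ℕ} {c : ℕ → ℂ} (hc : c m ≠ 0) : (fa_P m c).leadingCoeff = c m := by
  rw [Polynomial.leadingCoeff, Polynomial.natDegree_eq_of_degree_eq_some (fa_P_degree hc), fa_P_coeff,
    if_pos le_rfl]

theorem fa_inj {m : ℕ} {y : Fin m → ℝ} (hy : Function.Injective y) :
    Function.Injective fun j => exp (2 * I * (I * (y j : ℂ))) := by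
  intro j k hjk
  have h1 : ∀ j, exp (2 * I * (I * (y j : ℂ))) = ((Real.exp (-(2 * y j)) : ℝ) : ℂ) := by
    intro j
    rw [Complex.ofReal_exp]
    congr 1
    push_cast
    linear_combination (2 * (y j : ℂ)) * I_mul_I
  simp only [h1] at hjk
  have h2 := Real.exp_injective (Complex.ofReal_injective hjk)
  exact hy (by linarith)

theorem fa_factor {m : ℕ} {c : ℕ → ℂ} (hc : c m ≠ 0) {y : Fin m → ℝ} (hy : Function.Injective y)
    (h0 : ∀ j, tp m c (I * y j) = 0) (u : ℂ) :
    tp m c u = c m * (2 * I) ^ m * exp (-∑ j, (y j : ℂ)) * ∏ j, sin (u - I * y j) := by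
  have hz : ∀ j, (fa_P m c).eval (exp (2 * I * (I * (y j : ℂ)))) = 0 := by
    intro j
    have h1 := h0 j
    rw [fa_eq] at h1
    exact (mul_eq_zero.mp h1).resolve_left (exp_ne_zero _)
  have hprod : fa_P m c = Polynomial.C (c m) * ∏ j, (Polynomial.X - Polynomial.C (exp (2 * I * (I * (y j : ℂ))))) := by
    have hmon : (∏ j, (Polynomial.X - Polynomial.C (exp (2 * I * (I * (y j : ℂ)))))).Monic :=
      Polynomial.monic_prod_of_monic _ _ fun j _ => Polynomial.monic_X_sub_C _
    have hdeg : (∏ j, (Polynomial.X - Polynomial.C (exp (2 * I * (I * (y j : ℂ)))))).degree = (m : WithBot ℕ) := by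
      rw [Polynomial.degree_prod]
      simp
    refine Polynomial.eq_of_degree_sub_lt_of_eval_index_eq Finset.univ
      (v := fun j => exp (2 * I * (I * (y j : ℂ)))) ((fa_inj hy).injOn) ?_ ?_
    · rw [Finset.card_univ, Fintype.card_fin, ← fa_P_degree hc]
      refine Polynomial.degree_sub_lt_left ?_ ?_ ?_
      · rw [Polynomial.degree_mul, hdeg, Polynomial.degree_C hc, zero_add, fa_P_degree hc]
      · intro h
        have := fa_P_degree hc
        rw [h, Polynomial.degree_zero] at this
        exact absurd this (by simp)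
      · rw [fa_P_lead hc, Polynomial.leadingCoeff_mul, hmon.leadingCoeff, Polynomial.leadingCoeff_C, mul_one]
    · intro j _
      rw [hz j, Polynomial.eval_mul, Polynomial.eval_prod]
      refine (mul_eq_zero_of_right _ ?_).symm
      refine Finset.prod_eq_zero (Finset.mem_univ j) ?_
      simp
  have hfac : ∀ j, exp (2 * I * u) - exp (2 * I * (I * (y j : ℂ))) =
      exp (I * u) * exp (-(y j : ℂ)) * (2 * I) * sin (u - I * y j) := by
    intro j
    rw [Complex.sin]
    have e1 : exp (2 * I * u) = exp (I * u) * exp (-(y j : ℂ)) * exp ((u - I * y j) * I) := by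
      rw [← Complex.exp_add, ← Complex.exp_add]
      congr 1
      linear_combination (y j : ℂ) * I_mul_I
    have e2 : exp (2 * I * (I * (y j : ℂ))) = exp (I * u) * exp (-(y j : ℂ)) * exp (-(u - I * y j) * I) := by
      rw [← Complex.exp_add, ← Complex.exp_add]
      congr 1
      linear_combination (y j : ℂ) * I_mul_I
    rw [e1, e2]
    linear_combination (-(exp (I * u) * exp (-(y j : ℂ)) * (exp (-(u - I * y j) * I) - exp ((u - I * y j) * I)))) * I_mul_I
  rw [fa_eq, hprod, Polynomial.eval_mul, Polynomial.eval_C, Polynomial.eval_prod]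
  simp only [Polynomial.eval_sub, Polynomial.eval_X, Polynomial.eval_C, hfac]
  rw [Finset.prod_mul_distrib, Finset.prod_mul_distrib, Finset.prod_mul_distrib, Finset.prod_const,
    Finset.prod_const, Finset.card_univ, Fintype.card_fin, ← Complex.exp_sum, ← Complex.exp_nat_mul,
    Finset.sum_neg_distrib]
  have h3 : exp (-(I * m * u)) * exp (m * (I * u)) = 1 := by
    rw [← Complex.exp_add]
    convert Complex.exp_zero using 2
    ring
  linear_combination (c m * (2 * I) ^ m * exp (-∑ j, (y j : ℂ)) * ∏ j, sin (u - I * y j)) * h3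

/-- the real zeros are bounded from below in terms of the coefficients -/
theorem fa_bound {m : ℕ} {c : ℕ → ℂ} {a C : ℝ} (ha : 0 < a) (hca : a ≤ ‖c m‖) (hC : 0 ≤ C)
    (hcC : ∀ j < m, ‖c j‖ ≤ C) {y : ℝ} (h0 : tp m c (I * y) = 0) :
    Real.exp (-(2 * y)) ≤ 1 + C * m / a := by
  have h1 : (fa_P m c).eval (exp (2 * I * (I * (y : ℂ)))) = 0 := by
    rw [fa_eq] at h0
    exact (mul_eq_zero.mp h0).resolve_left (exp_ne_zero _)
  have h2 : exp (2 * I * (I * (y : ℂ))) = ((Real.exp (-(2 * y)) : ℝ) : ℂ) := by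
    rw [Complex.ofReal_exp]
    congr 1
    push_cast
    linear_combination (2 * (y : ℂ)) * I_mul_I
  rw [h2] at h1
  set z := Real.exp (-(2 * y)) with hz
  have hz0 : 0 < z := Real.exp_pos _
  rcases le_or_gt z 1 with hz1 | hz1
  · have : 0 ≤ C * m / a := by positivity
    linarith
  · rw [fa_P, Polynomial.eval_finsetSum, Finset.sum_range_succ] at h1
    simp only [Polynomial.eval_mul, Polynomial.eval_C, Polynomial.eval_pow, Polynomial.eval_X] at h1
    have h3 : c m * (z : ℂ) ^ m = -∑ j ∈ Finset.range m, c j * (z : ℂ) ^ j := by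
      linear_combination h1
    have h4 : a * z ^ m ≤ ∑ j ∈ Finset.range m, C * z ^ (m - 1) := by
      calc a * z ^ m ≤ ‖c m * (z : ℂ) ^ m‖ := by
            rw [norm_mul, norm_pow, Complex.norm_real, Real.norm_of_nonneg hz0.le]
            exact mul_le_mul_of_nonneg_right hca (by positivity)
        _ ≤ ∑ j ∈ Finset.range m, ‖c j * (z : ℂ) ^ j‖ := by
            rw [h3, norm_neg]
            exact norm_sum_le _ _
        _ ≤ ∑ j ∈ Finset.range m, C * z ^ (m - 1) := by
            refine Finset.sum_le_sum fun j hj => ?_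
            rw [Finset.mem_range] at hj
            rw [norm_mul, norm_pow, Complex.norm_real, Real.norm_of_nonneg hz0.le]
            exact mul_le_mul (hcC j hj) (pow_le_pow_right₀ hz1.le (by omega)) (by positivity) hC
    rw [Finset.sum_const, Finset.card_range, nsmul_eq_mul] at h4
    rcases Nat.eq_zero_or_pos m with hm | hm
    · subst hm
      simp at h4
      linarith
    · obtain ⟨k, rfl⟩ : ∃ k, m = k + 1 := ⟨m - 1, by omega⟩
      rw [Nat.add_sub_cancel, pow_succ] at h4
      have h5 : a * z ≤ (k + 1 : ℕ) * C := by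
        have hzk : 0 < z ^ k := by positivity
        have h6 : (a * z) * z ^ k ≤ ((k + 1 : ℕ) * C) * z ^ k := by linarith
        exact le_of_mul_le_mul_right h6 hzk
      have h7 : z ≤ C * (k + 1 : ℕ) / a := by
        rw [le_div_iff₀ ha]
        linarith
      linarith

theorem fa_cont (m : ℕ) (c : ℕ → ℂ) : Continuous (tp m c) := by
  unfold tp
  fun_prop

/-- the signs of `∏ sinh (y - y_j)` on the two sides of a zero -/
theorem fa_sign {m : ℕ} {y : Fin m → ℝ} {j : Fin m} {δ : ℝ} (hδ : 0 < δ)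
    (hsep : ∀ k, k ≠ j → δ < |y j - y k|) :
    (∏ k, Real.sinh (y j - δ - y k)) * (∏ k, Real.sinh (y j + δ - y k)) < 0 := by
  rw [← Finset.prod_mul_distrib, ← Finset.mul_prod_erase Finset.univ _ (Finset.mem_univ j)]
  refine mul_neg_of_neg_of_pos ?_ ?_
  · rw [show y j - δ - y j = -δ by ring, show y j + δ - y j = δ by ring, Real.sinh_neg]
    have := Real.sinh_pos_iff.mpr hδ
    nlinarith
  · refine Finset.prod_pos fun k hk => ?_
    have h1 := hsep k (Finset.ne_of_mem_erase hk)
    rcases lt_abs.mp h1 with h2 | h2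
    · exact mul_pos (Real.sinh_pos_iff.mpr (by linarith)) (Real.sinh_pos_iff.mpr (by linarith))
    · exact mul_pos_of_neg_of_neg (Real.sinh_neg_iff.mpr (by linarith)) (Real.sinh_neg_iff.mpr (by linarith))

/-- `∏ sin (i y - i y_j) = i^m ∏ sinh (y - y_j)` -/
theorem fa_sinI {m : ℕ} (y : Fin m → ℝ) (t : ℝ) :
    ∏ j, sin (I * t - I * y j) = I ^ m * ((∏ j, Real.sinh (t - y j) : ℝ) : ℂ) := by
  have h1 : ∀ j, sin (I * t - I * y j) = I * (Real.sinh (t - y j) : ℝ) := by
    intro j
    rw [← mul_sub, mul_comm I, Complex.sin_mul_I, mul_comm]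
    push_cast
    rfl
  simp only [h1]
  rw [Finset.prod_mul_distrib, Finset.prod_const, Finset.card_univ, Fintype.card_fin]
  push_cast
  rfl

end Pool.Agent.CYL.B
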