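import Mathlib
import Pool.Agent.CYL.B.FacA

/-!
# CYL, part B: the coefficients of a trigonometric polynomial (helper32)

`cf m f j`: discrete Fourier sum.  `cf_tp`: `cf m (tp m c) j = c j` for `j ≤ m`.  So the coefficients of
`q_w` are continuous in `w` (`ca_coef`).
-/

namespace Pool.Agent.CYL.B

open Complex Finset

/-- the coefficients as discrete Fourier sums -/
noncomputable def cf (m : ℕ) (f : ℂ → ℂ) (j : ℕ) : ℂ :=
  (∑ k ∈ range (m + 1), f (Real.pi * k / (m + 1)) *
    exp (-(I * ((2 * j : ℂ) - m) * (Real.pi * k / (m + 1))))) / (m + 1)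

theorem cf_geom {m j j' : ℕ} (hj : j ≤ m) (hj' : j' ≤ m) :
    ∑ k ∈ range (m + 1), exp (2 * I * ((j' : ℂ) - j) * (Real.pi * k / (m + 1))) =
      if j' = j then ((m : ℂ) + 1) else 0 := by
  have hm : (m : ℂ) + 1 ≠ 0 := by
    exact_mod_cast Nat.succ_ne_zero m
  set r : ℂ := exp (2 * I * ((j' : ℂ) - j) * (Real.pi / (m + 1))) with hr
  have h1 : ∀ k : ℕ, exp (2 * I * ((j' : ℂ) - j) * (Real.pi * k / (m + 1))) = r ^ k := by
    intro k
    rw [hr, ← Complex.exp_nat_mul]
    congr 1
    ring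
  simp only [h1]
  by_cases h : j' = j
  · have hr1 : r = 1 := by
      rw [hr, h, sub_self, mul_zero, zero_mul, Complex.exp_zero]
    rw [if_pos h, hr1]
    simp
  · rw [if_neg h]
    have hr1 : r ≠ 1 := by
      intro hr1
      rw [hr, Complex.exp_eq_one_iff] at hr1
      obtain ⟨n, hn⟩ := hr1
      have hpi : (Real.pi : ℂ) ≠ 0 := by exact_mod_cast Real.pi_ne_zero
      have h2 : ((j' : ℂ) - j) = n * (m + 1) := by
        have hI : (2 * I * Real.pi : ℂ) ≠ 0 := by
          simp [Real.pi_ne_zero]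
        apply mul_left_cancel₀ hI
        field_simp at hn
        linear_combination (2 * I * Real.pi) * hn
      have h3 : (j' : ℤ) - j = n * (m + 1) := by exact_mod_cast h2
      have h4 : |(j' : ℤ) - j| ≤ m := by
        rw [abs_le]
        constructor <;> omega
      rcases eq_or_ne n 0 with hn0 | hn0
      · rw [hn0, zero_mul] at h3
        exact h (by omega)
      · have h5 : (1 : ℤ) ≤ |n| := Int.one_le_abs hn0
        rw [h3, abs_mul, abs_of_nonneg (by positivity : (0 : ℤ) ≤ (m : ℤ) + 1)] at h4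
        nlinarith
    have h6 : r ^ (m + 1) = 1 := by
      rw [hr, ← Complex.exp_nat_mul, Complex.exp_eq_one_iff]
      refine ⟨(j' : ℤ) - j, ?_⟩
      push_cast
      field_simp
    rw [geom_sum_eq hr1, h6, sub_self, zero_div]

theorem cf_tp {m : ℕ} (c : ℕ → ℂ) {j : ℕ} (hj : j ≤ m) : cf m (tp m c) j = c j := by
  have hm : (m : ℂ) + 1 ≠ 0 := by
    exact_mod_cast Nat.succ_ne_zero m
  rw [cf, div_eq_iff hm]
  simp only [tp, Finset.sum_mul]
  rw [Finset.sum_comm]
  have h1 : ∀ j' ∈ range (m + 1), ∑ k ∈ range (m + 1),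
      c j' * exp (I * ((2 * j' : ℂ) - m) * (Real.pi * k / (m + 1))) *
        exp (-(I * ((2 * j : ℂ) - m) * (Real.pi * k / (m + 1)))) =
      if j' = j then c j' * ((m : ℂ) + 1) else 0 := by
    intro j' hj'
    have h2 : ∀ k : ℕ, c j' * exp (I * ((2 * j' : ℂ) - m) * (Real.pi * k / (m + 1))) *
        exp (-(I * ((2 * j : ℂ) - m) * (Real.pi * k / (m + 1)))) =
        c j' * exp (2 * I * ((j' : ℂ) - j) * (Real.pi * k / (m + 1))) := by
      intro k
      rw [mul_assoc, ← Complex.exp_add]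
      congr 2
      ring
    simp only [h2]
    rw [← Finset.mul_sum, cf_geom hj (Nat.lt_succ_iff.mp (mem_range.mp hj'))]
    split_ifs <;> simp
  rw [Finset.sum_congr rfl h1, Finset.sum_ite_eq', if_pos (mem_range.mpr (Nat.lt_succ_iff.mpr hj))]

theorem tp_congr {m : ℕ} {c c' : ℕ → ℂ} (h : ∀ j ≤ m, c j = c' j) (u : ℂ) : tp m c u = tp m c' u := by
  unfold tp
  exact Finset.sum_congr rfl fun j hj => by rw [h j (Nat.lt_succ_iff.mp (mem_range.mp hj))]

variable {p m l : ℕ}

/-- `q_w` is the trigonometric polynomial with the coefficients `cf m (q_w)`, the leading one is not zero -/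
theorem ca_coef (D : BData p m l) {w : ℝ} (hw : w ∈ Set.Ico 0 la) :
    cf m (D.q w) m ≠ 0 ∧ ∀ u, D.q w u = tp m (cf m (D.q w)) u := by
  obtain ⟨c, hc, hq⟩ := D.q_tp w hw
  have h1 : D.q w = tp m c := funext hq
  rw [h1]
  refine ⟨?_, fun u => ?_⟩
  · rw [cf_tp c le_rfl]
    exact hc
  · exact tp_congr (fun j hj => (cf_tp c hj).symm) u

theorem ca_cont (D : BData p m l) (j : ℕ) : ContinuousOn (fun w => cf m (D.q w) j) (Set.Ico 0 la) := by
  unfold cf
  refine ContinuousOn.div_const ?_ _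
  refine continuousOn_finsetSum _ fun k _ => ?_
  exact (D.q_cont _).mul continuousOn_const

/-- joint continuity -/
theorem ca_joint (D : BData p m l) : ContinuousOn (fun x : ℝ × ℂ => D.q x.1 x.2) (Set.Ico 0 la ×ˢ Set.univ) := by
  have h1 : ContinuousOn (fun x : ℝ × ℂ => tp m (cf m (D.q x.1)) x.2) (Set.Ico 0 la ×ˢ Set.univ) := by
    unfold tp
    refine continuousOn_finsetSum _ fun j _ => ?_
    refine ContinuousOn.mul ?_ (Continuous.continuousOn (by fun_prop))
    exact (ca_cont D j).comp continuousOn_fst fun x hx => hx.1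
  exact h1.congr fun x hx => (ca_coef D hx.1).2 x.2

end Pool.Agent.CYL.B
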