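import Mathlib
import Pool.Agent.CYL.B.CofA

/-!
# CYL, part B: the set `GG` in terms of the zeros (helper32)

`gf_prod`: if `q_w` has the `m` distinct real zeros `i v_1, .., i v_m`, then `q_w = c ∏ sin (u - i v_j)`, `c` real, and the `v_j` are symmetric.
`gf_iff`: `GW` in terms of zeros.  `zw_cont`: joint continuity of `Z_w (v_j)`.
-/

namespace Pool.Agent.CYL.B

open Complex Finset Filter Topology

variable {p m l : ℕ}

theorem pr_zero_iff {m : ℕ} {c : ℝ} (hc : c ≠ 0) (v : Fin m → ℝ) (t : ℝ) :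
    pr c v (I * t) = 0 ↔ ∃ j, t = v j := by
  rw [pr, fa_sinI]
  constructor
  · intro h
    rcases mul_eq_zero.mp h with h1 | h1
    · exact absurd (by exact_mod_cast h1) hc
    · rcases mul_eq_zero.mp h1 with h2 | h2
      · exact absurd h2 (pow_ne_zero _ I_ne_zero)
      · have h3 : ∏ j, Real.sinh (t - v j) = 0 := by exact_mod_cast h2
        obtain ⟨j, -, hj⟩ := Finset.prod_eq_zero_iff.mp h3
        exact ⟨j, by linarith [Real.sinh_eq_zero.mp hj]⟩
  · rintro ⟨j, rfl⟩
    refine mul_eq_zero_of_right _ (mul_eq_zero_of_right _ ?_)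
    have : ∏ k, Real.sinh (v j - v k) = 0 := by
      refine Finset.prod_eq_zero (Finset.mem_univ j) ?_
      rw [sub_self, Real.sinh_zero]
    exact_mod_cast this

theorem gf_prod (D : BData p m l) {w : ℝ} (hw : w ∈ Set.Ico 0 la) {v : Fin m → ℝ} (hv : StrictMono v)
    (h0 : ∀ j, D.q w (I * v j) = 0) :
    ∃ c : ℝ, c ≠ 0 ∧ (∀ j, v (Fin.rev j) = - v j) ∧ ∀ u, D.q w u = pr c v u := by
  obtain ⟨hc, hq⟩ := ca_coef D hw
  have h1 : ∀ u, D.q w u = cf m (D.q w) m * (2 * I) ^ m * exp (-∑ j, (v j : ℂ)) *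
      ∏ j, sin (u - I * v j) := fun u => by
    rw [hq u]
    exact fa_factor hc hv.injective (fun j => by rw [← hq]; exact h0 j) u
  set K : ℂ := cf m (D.q w) m * (2 * I) ^ m * exp (-∑ j, (v j : ℂ)) with hK
  have hK0 : K ≠ 0 := by
    rw [hK]
    refine mul_ne_zero (mul_ne_zero hc (pow_ne_zero _ ?_)) (exp_ne_zero _)
    simp
  -- the zeros are symmetric
  have hz : ∀ t : ℝ, D.q w (I * t) = 0 ↔ ∃ j, t = v j := by
    intro t
    rw [h1, fa_sinI]
    constructor
    · intro h
      rcases mul_eq_zero.mp h with h1 | h1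
      · exact absurd h1 hK0
      · rcases mul_eq_zero.mp h1 with h2 | h2
        · exact absurd h2 (pow_ne_zero _ I_ne_zero)
        · have h3 : ∏ j, Real.sinh (t - v j) = 0 := by exact_mod_cast h2
          obtain ⟨j, -, hj⟩ := Finset.prod_eq_zero_iff.mp h3
          exact ⟨j, by linarith [Real.sinh_eq_zero.mp hj]⟩
    · rintro ⟨j, rfl⟩
      refine mul_eq_zero_of_right _ (mul_eq_zero_of_right _ ?_)
      have : ∏ k, Real.sinh (v j - v k) = 0 := by
        refine Finset.prod_eq_zero (Finset.mem_univ j) ?_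
        rw [sub_self, Real.sinh_zero]
      exact_mod_cast this
  have hneg : ∀ j, ∃ k, - v j = v k := by
    intro j
    refine (hz _).mp ?_
    have h2 := D.q_neg w hw (I * v j)
    rw [h0 j, mul_zero] at h2
    rw [← h2]
    congr 1
    push_cast
    ring
  have hv' : StrictMono fun j : Fin m => - v (Fin.rev j) := by
    intro i j hij
    exact neg_lt_neg (hv (Fin.rev_lt_rev.mpr hij))
  have hrange : Set.range (fun j : Fin m => - v (Fin.rev j)) = Set.range v := by
    ext x
    constructor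
    · rintro ⟨j, rfl⟩
      obtain ⟨k, hk⟩ := hneg (Fin.rev j)
      exact ⟨k, hk.symm⟩
    · rintro ⟨j, rfl⟩
      obtain ⟨k, hk⟩ := hneg j
      refine ⟨Fin.rev k, ?_⟩
      simp only [Fin.rev_rev]
      linarith
  have hsym : ∀ j, v (Fin.rev j) = - v j := by
    have h3 := (hv'.range_inj hv).mp hrange
    intro j
    have h4 : - v (Fin.rev j) = v j := congrFun h3 j
    linarith
  -- the constant is real
  have hreal : ∃ c : ℝ, (c : ℂ) = K := by
    have h2 := h1 (Real.pi / 2)
    have h3 : ∀ j, sin ((Real.pi : ℂ) / 2 - I * v j) = ((Real.cosh (v j) : ℝ) : ℂ) := by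
      intro j
      rw [Complex.sin_pi_div_two_sub, mul_comm, Complex.cos_mul_I]
      push_cast
      rfl
    simp only [h3] at h2
    have h4 : (∏ j, ((Real.cosh (v j) : ℝ) : ℂ)) = ((∏ j, Real.cosh (v j) : ℝ) : ℂ) := by
      push_cast
      rfl
    rw [h4] at h2
    have hpos : 0 < ∏ j, Real.cosh (v j) := Finset.prod_pos fun j _ => Real.cosh_pos _
    have h5 := D.q_conj w hw (Real.pi / 2)
    have h6 : (starRingEnd ℂ) ((Real.pi : ℂ) / 2) = (Real.pi : ℂ) / 2 := by
      rw [map_div₀, Complex.conj_ofReal]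
      congr 1
      exact Complex.conj_ofReal 2
    rw [h6] at h5
    obtain ⟨r, hr⟩ := Complex.conj_eq_iff_real.mp h5
    refine ⟨r / ∏ j, Real.cosh (v j), ?_⟩
    rw [hr] at h2
    have hne : ((∏ j, Real.cosh (v j) : ℝ) : ℂ) ≠ 0 := by exact_mod_cast hpos.ne'
    rw [Complex.ofReal_div, h2]
    field_simp
  obtain ⟨c, hc'⟩ := hreal
  refine ⟨c, ?_, hsym, fun u => ?_⟩
  · intro h
    rw [h] at hc'
    exact hK0 (by rw [← hc']; simp)
  · rw [h1 u, pr, hc']

theorem gf_iff (D : BData p m l) {w : ℝ} (hw : w ∈ Set.Ico 0 la) : GW p m w (D.q w) ↔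
    ∃ v : Fin m → ℝ, StrictMono v ∧ (∀ j, D.q w (I * v j) = 0) ∧
      ∀ j : Fin m, ZW p w v (v j) = Real.pi * (2 * (j : ℕ) + 1 - m) := by
  constructor
  · rintro ⟨c, v, hc, hv, hs, hq, hn⟩
    refine ⟨v, hv, fun j => ?_, hn⟩
    rw [hq, pr_zero_iff hc]
    exact ⟨j, rfl⟩
  · rintro ⟨v, hv, h0, hn⟩
    obtain ⟨c, hc, hs, hq⟩ := gf_prod D hw hv h0
    exact ⟨c, v, hc, hv, hs, hq, hn⟩

theorem gf_la_pos : 0 < la := by
  unfold la
  positivity

theorem gf_tanh : Continuous Real.tanh := by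
  have h : Real.tanh = fun x => Real.sinh x / Real.cosh x := funext Real.tanh_eq_sinh_div_cosh
  rw [h]
  exact Real.continuous_sinh.div Real.continuous_cosh fun x => (Real.cosh_pos x).ne'

theorem th_cont : ContinuousOn (fun x : ℝ × ℝ => th x.1 x.2) (Set.Ioo 0 Real.pi ×ˢ Set.univ) := by
  unfold th
  refine ContinuousOn.mul continuousOn_const ?_
  refine Real.continuous_arctan.comp_continuousOn ?_
  refine ContinuousOn.mul ?_ ?_
  · refine ContinuousOn.div (Real.continuous_cos.comp_continuousOn continuousOn_fst)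
      (Real.continuous_sin.comp_continuousOn continuousOn_fst) fun x hx => ?_
    exact (Real.sin_pos_of_mem_Ioo hx.1).ne'
  · exact gf_tanh.comp_continuousOn continuousOn_snd

theorem th_cont_y (a : ℝ) : Continuous (th a) := by
  unfold th
  exact continuous_const.mul (Real.continuous_arctan.comp (continuous_const.mul gf_tanh))

theorem Th_cont : Continuous Th := by
  unfold Th
  exact (th_cont_y _).sub (th_cont_y _)

theorem zw_cont (p : ℕ) {m : ℕ} (j : Fin m) :
    ContinuousOn (fun x : ℝ × (Fin m → ℝ) => ZW p x.1 x.2 (x.2 j)) (Set.Ico 0 la ×ˢ Set.univ) := by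
  unfold ZW
  have hla := gf_la_pos
  have hlap : 2 * la < Real.pi := by
    unfold la
    linarith [Real.pi_pos]
  refine ContinuousOn.sub (ContinuousOn.mul continuousOn_const (ContinuousOn.add ?_ ?_)) ?_
  · refine th_cont.comp (f := fun x : ℝ × (Fin m → ℝ) => (la - x.1, x.2 j)) ?_ ?_
    · exact Continuous.continuousOn (by fun_prop)
    · rintro x ⟨⟨h1, h2⟩, -⟩
      exact ⟨⟨by simp only; linarith, by simp only; linarith⟩, trivial⟩
  · refine th_cont.comp (f := fun x : ℝ × (Fin m → ℝ) => (la + x.1, x.2 j)) ?_ ?_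
    · exact Continuous.continuousOn (by fun_prop)
    · rintro x ⟨⟨h1, h2⟩, -⟩
      exact ⟨⟨by simp only; linarith, by simp only; linarith⟩, trivial⟩
  · refine Continuous.continuousOn ?_
    exact continuous_finsetSum _ fun k _ => Th_cont.comp (by fun_prop)

end Pool.Agent.CYL.B
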