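import Pool.Agent.CYL.B.Coef
import Pool.Agent.CYL.B.GForm

/-!
CYL, part B: a trigonometric polynomial of degree `m` with `m` real zeros has product form.
-/

namespace Pool.Agent.CYL.B

open Filter Topology Finset

/-- zeros of the product form on the imaginary axis. -/
theorem pr_eq_zero_iff {m : ℕ} {c : ℝ} (hc : c ≠ 0) (v : Fin m → ℝ) (y : ℝ) :
    pr c v (Complex.I * y) = 0 ↔ ∃ j, y = v j :=
  pr_zero_iff hc v y

/-- the product form is non zero away from the imaginary axis (mod pi). -/
theorem pr_ne_zero {m : ℕ} {c : ℝ} (hc : c ≠ 0) (v : Fin m → ℝ) {a : ℝ} (ha : Real.sin a ≠ 0)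
    (y : ℝ) : pr c v (a + Complex.I * y) ≠ 0 := by
  rw [pr]
  refine mul_ne_zero (by exact_mod_cast hc) (Finset.prod_ne_zero_iff.mpr fun j _ => ?_)
  intro h0
  have e1 : (a : ℂ) + Complex.I * y - Complex.I * v j = (a : ℂ) + ((y - v j : ℝ) : ℂ) * Complex.I := by
    push_cast
    ring
  rw [e1, Complex.sin_add_mul_I] at h0
  have h2 := congrArg Complex.re h0
  have h3 : (Complex.sin a * Complex.cosh ((y - v j : ℝ) : ℂ) +
      Complex.cos a * Complex.sinh ((y - v j : ℝ) : ℂ) * Complex.I).re
      = Real.sin a * Real.cosh (y - v j) := by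
    rw [← Complex.ofReal_sin, ← Complex.ofReal_cosh, ← Complex.ofReal_cos,
      ← Complex.ofReal_sinh, Complex.add_re, ← Complex.ofReal_mul, ← Complex.ofReal_mul,
      Complex.ofReal_re, Complex.re_ofReal_mul, Complex.I_re, mul_zero, add_zero]
  rw [h3, Complex.zero_re] at h2
  rcases mul_eq_zero.mp h2 with h4 | h4
  · exact ha h4
  · exact (Real.cosh_pos _).ne' h4

/-- `m` different zeros `i v_j` of a trigonometric polynomial of degree `m`: product form. -/
theorem tp_factor {m : ℕ} {c : ℕ → ℂ} (hc : c m ≠ 0) (v : Fin m → ℝ)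
    (hv : Function.Injective v) (h0 : ∀ j, tp m c (Complex.I * v j) = 0) :
    ∃ C : ℂ, C ≠ 0 ∧ ∀ u, tp m c u = C * ∏ j, Complex.sin (u - Complex.I * v j) := by
  refine ⟨c m * (2 * Complex.I) ^ m * Complex.exp (-∑ j, (v j : ℂ)), ?_, fun u => fa_factor hc hv h0 u⟩
  refine mul_ne_zero (mul_ne_zero hc (pow_ne_zero _ ?_)) (Complex.exp_ne_zero _)
  simp

/-- a nonzero trigonometric polynomial of degree at most `m` has at most `m` zeros `i y`. -/
theorem tp_zero_of_zeros {m : ℕ} {c : ℕ → ℂ} (hc : c m ≠ 0) (s : Finset ℝ)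
    (hs : ∀ y ∈ s, tp m c (Complex.I * y) = 0) : s.card ≤ m := by
  have hP : fa_P m c ≠ 0 := by
    intro h
    have := fa_P_degree hc
    rw [h, Polynomial.degree_zero] at this
    exact absurd this (by simp)
  have hnat : (fa_P m c).natDegree = m := Polynomial.natDegree_eq_of_degree_eq_some (fa_P_degree hc)
  have hexp : ∀ y : ℝ, Complex.exp (2 * Complex.I * (Complex.I * (y : ℂ))) = ((Real.exp (-(2 * y)) : ℝ) : ℂ) := by
    intro y
    rw [Complex.ofReal_exp]
    congr 1
    push_cast
    linear_combination (2 * (y : ℂ)) * Complex.I_mul_I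
  have hinj : Function.Injective fun y : ℝ => Complex.exp (2 * Complex.I * (Complex.I * (y : ℂ))) := by
    intro y y' h
    simp only [hexp] at h
    have h2 := Real.exp_injective (Complex.ofReal_injective h)
    linarith
  classical
  have hsub : (s.image fun y : ℝ => Complex.exp (2 * Complex.I * (Complex.I * (y : ℂ)))) ⊆
      (fa_P m c).roots.toFinset := by
    intro z hz
    obtain ⟨y, hy, rfl⟩ := Finset.mem_image.mp hz
    rw [Multiset.mem_toFinset, Polynomial.mem_roots hP, Polynomial.IsRoot.def]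
    have h1 := hs y hy
    rw [fa_eq] at h1
    exact (mul_eq_zero.mp h1).resolve_left (Complex.exp_ne_zero _)
  calc s.card = (s.image fun y : ℝ => Complex.exp (2 * Complex.I * (Complex.I * (y : ℂ)))).card :=
        (Finset.card_image_of_injective s hinj).symm
    _ ≤ (fa_P m c).roots.toFinset.card := Finset.card_le_card hsub
    _ ≤ Multiset.card (fa_P m c).roots := Multiset.toFinset_card_le _
    _ ≤ (fa_P m c).natDegree := Polynomial.card_roots' _
    _ = m := hnat

/-- Product form of `q_w` from `m` real zeros; the zeros are symmetric. -/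
theorem q_factor {p m l : ℕ} (D : BData p m l) {w : ℝ} (hw : w ∈ Set.Ico 0 la)
    (v : Fin m → ℝ) (hv : StrictMono v) (h0 : ∀ j, D.q w (Complex.I * v j) = 0) :
    (∀ j, v (Fin.rev j) = - v j) ∧ ∃ c : ℝ, c ≠ 0 ∧ ∀ u, D.q w u = pr c v u := by
  obtain ⟨c, hc, hs, hq⟩ := gf_prod D hw hv h0
  exact ⟨hs, c, hc, hq⟩

end Pool.Agent.CYL.B
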