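import Pool.Agent.CYL.B.Def

/-!
CYL, part B: the phase functions `th a`, `Th`.
-/

namespace Pool.Agent.CYL.B

open Filter Topology Finset

lemma la_pos : 0 < la := by unfold la; positivity

lemma la_lt : la < 1 := by
  unfold la; linarith [Real.pi_lt_four]

/-- `0 < a < pi` gives `0 < sin a`, for the multiples of `lam` that occur. -/
lemma sin_la_pos : 0 < Real.sin la := by
  have h := Real.pi_pos
  exact Real.sin_pos_of_pos_of_lt_pi la_pos (by unfold la; linarith)

lemma sin_two_la_pos : 0 < Real.sin (2 * la) := by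
  have h := Real.pi_pos
  exact Real.sin_pos_of_pos_of_lt_pi (by linarith [la_pos]) (by unfold la; linarith)

lemma sin_sub_pos {w : ℝ} (hw : w ∈ Set.Ico 0 la) : 0 < Real.sin (la - w) := by
  have h := Real.pi_pos
  have h1 := hw.1
  have h2 := hw.2
  exact Real.sin_pos_of_pos_of_lt_pi (by linarith) (by unfold la; linarith)

lemma sin_add_pos {w : ℝ} (hw : w ∈ Set.Ico 0 la) : 0 < Real.sin (la + w) := by
  have h := Real.pi_pos
  have h1 := hw.1
  have h2 := hw.2
  have h3 := la_pos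
  refine Real.sin_pos_of_pos_of_lt_pi (by linarith) ?_
  unfold la at *
  linarith

lemma sin_two_sub_pos {w : ℝ} (hw : w ∈ Set.Ico 0 la) : 0 < Real.sin (2 * la - w) := by
  have h := Real.pi_pos
  have h1 := hw.1
  have h2 := hw.2
  have h3 := la_pos
  refine Real.sin_pos_of_pos_of_lt_pi (by linarith) ?_
  unfold la at *
  linarith

lemma sin_two_add_pos {w : ℝ} (hw : w ∈ Set.Ico 0 la) : 0 < Real.sin (2 * la + w) := by
  have h := Real.pi_pos
  have h1 := hw.1
  have h2 := hw.2
  have h3 := la_pos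
  refine Real.sin_pos_of_pos_of_lt_pi (by linarith) ?_
  unfold la at *
  linarith

lemma th_neg (a y : ℝ) : th a (-y) = - th a y := by
  unfold th
  rw [Real.tanh_neg, mul_neg, Real.arctan_neg, mul_neg]

lemma th_zero (a : ℝ) : th a 0 = 0 := by
  unfold th
  rw [Real.tanh_zero, mul_zero, Real.arctan_zero, mul_zero]

lemma Th_neg (y : ℝ) : Th (-y) = - Th y := by
  unfold Th
  rw [th_neg, th_neg]
  ring

lemma Th_zero : Th 0 = 0 := by
  unfold Th
  rw [th_zero, th_zero, sub_zero]

private lemma tanh_hasDerivAt (y : ℝ) : HasDerivAt Real.tanh (1 / Real.cosh y ^ 2) y := by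
  have h1 := (Real.hasDerivAt_sinh y).div (Real.hasDerivAt_cosh y) (Real.cosh_pos y).ne'
  have h2 : (fun x => Real.sinh x / Real.cosh x) = Real.tanh := by
    funext x
    rw [Real.tanh_eq_sinh_div_cosh]
  have h3 : (Real.cosh y * Real.cosh y - Real.sinh y * Real.sinh y) / Real.cosh y ^ 2 =
      1 / Real.cosh y ^ 2 := by
    congr 1
    nlinarith [Real.cosh_sq y]
  rw [h3] at h1
  rw [← h2]
  exact h1

private lemma tanh_cont : Continuous Real.tanh := by
  rw [continuous_iff_continuousAt]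
  exact fun y => (tanh_hasDerivAt y).continuousAt

private lemma tanh_lt {x y : ℝ} (h : x < y) : Real.tanh x < Real.tanh y := by
  rw [Real.tanh_eq_sinh_div_cosh, Real.tanh_eq_sinh_div_cosh,
    div_lt_div_iff₀ (Real.cosh_pos x) (Real.cosh_pos y)]
  have h1 : 0 < Real.sinh (y - x) := Real.sinh_pos_iff.2 (sub_pos.2 h)
  rw [Real.sinh_sub] at h1
  linarith

private lemma sin_re (a y : ℝ) : (Complex.sin (a + Complex.I * y)).re = Real.sin a * Real.cosh y := by
  rw [mul_comm Complex.I, Complex.sin_add, Complex.sin_mul_I, Complex.cos_mul_I]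
  simp [← Complex.ofReal_sin, ← Complex.ofReal_cos, ← Complex.ofReal_sinh, ← Complex.ofReal_cosh]

private lemma sin_im (a y : ℝ) : (Complex.sin (a + Complex.I * y)).im = Real.cos a * Real.sinh y := by
  rw [mul_comm Complex.I, Complex.sin_add, Complex.sin_mul_I, Complex.cos_mul_I]
  simp [← Complex.ofReal_sin, ← Complex.ofReal_cos, ← Complex.ofReal_sinh, ← Complex.ofReal_cosh]

private lemma polar {z : ℂ} (h : 0 < z.re) :
    z = (‖z‖ : ℂ) * Complex.exp (Complex.I * (Real.arctan (z.im / z.re) : ℝ)) := by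
  have h1 : ‖z‖ = z.re * Real.sqrt (1 + (z.im / z.re) ^ 2) := by
    have h2 : ‖z‖ ^ 2 = z.re ^ 2 * (1 + (z.im / z.re) ^ 2) := by
      rw [Complex.sq_norm, Complex.normSq_apply]
      field_simp
    have h3 : (z.re * Real.sqrt (1 + (z.im / z.re) ^ 2)) ^ 2 = ‖z‖ ^ 2 := by
      rw [mul_pow, Real.sq_sqrt (by positivity), h2]
    exact (sq_eq_sq₀ (norm_nonneg z) (mul_nonneg h.le (Real.sqrt_nonneg _))).1 h3.symm
  have h4 : 0 < Real.sqrt (1 + (z.im / z.re) ^ 2) := Real.sqrt_pos.2 (by positivity)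
  rw [mul_comm Complex.I]
  apply Complex.ext
  · rw [Complex.re_ofReal_mul, Complex.exp_ofReal_mul_I_re, Real.cos_arctan, h1]
    field_simp
  · rw [Complex.im_ofReal_mul, Complex.exp_ofReal_mul_I_im, Real.sin_arctan, h1]
    field_simp

lemma th_continuous (a : ℝ) : Continuous (th a) := by
  unfold th
  exact continuous_const.mul (Real.continuous_arctan.comp (continuous_const.mul tanh_cont))

lemma Th_continuous : Continuous Th := by
  unfold Th
  exact (th_continuous _).sub (th_continuous _)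

/-- joint continuity where `sin a ≠ 0`. -/
lemma th_continuousAt {a y : ℝ} (ha : Real.sin a ≠ 0) :
    ContinuousAt (fun x : ℝ × ℝ => th x.1 x.2) (a, y) := by
  unfold th
  refine continuousAt_const.mul (Real.continuous_arctan.continuousAt.comp ?_)
  refine ContinuousAt.mul (ContinuousAt.div ?_ ?_ ha) (tanh_cont.comp continuous_snd).continuousAt
  · exact (Real.continuous_cos.comp continuous_fst).continuousAt
  · exact (Real.continuous_sin.comp continuous_fst).continuousAt

/-- `sin (a + i y) = |.| e^(i th_a(y) / 2)` for `0 < sin a`. -/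
lemma sin_polar {a : ℝ} (ha : 0 < Real.sin a) (y : ℝ) :
    Complex.sin (a + Complex.I * y) =
      (‖Complex.sin (a + Complex.I * y)‖ : ℂ) * Complex.exp (Complex.I * (th a y / 2)) := by
  have hc := Real.cosh_pos y
  have h1 : 0 < (Complex.sin (a + Complex.I * y)).re := by
    rw [sin_re]
    exact mul_pos ha hc
  have h2 := polar h1
  have h3 : ((Real.arctan ((Complex.sin (a + Complex.I * y)).im / (Complex.sin (a + Complex.I * y)).re) : ℝ) : ℂ) =
      (th a y / 2 : ℂ) := by
    have h4 : Real.arctan ((Complex.sin (a + Complex.I * y)).im / (Complex.sin (a + Complex.I * y)).re) =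
        th a y / 2 := by
      rw [sin_re, sin_im]
      unfold th
      rw [Real.tanh_eq_sinh_div_cosh, div_mul_div_comm]
      ring
    rw [h4]
    push_cast
    rfl
  rw [h3] at h2
  exact h2

/-- `sin (- a + i y) = - |.| e^(- i th_a(y) / 2)` for `0 < sin a`. -/
lemma sin_polar_neg {a : ℝ} (ha : 0 < Real.sin a) (y : ℝ) :
    Complex.sin (-a + Complex.I * y) =
      -((‖Complex.sin (-a + Complex.I * y)‖ : ℂ) * Complex.exp (-(Complex.I * (th a y / 2)))) := by
  have h1 : Complex.sin (-a + Complex.I * y) = -Complex.sin (a + Complex.I * ((-y : ℝ) : ℂ)) := by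
    rw [← Complex.sin_neg]
    congr 1
    push_cast
    ring
  have h2 := sin_polar ha (-y)
  rw [th_neg] at h2
  rw [h1, norm_neg]
  conv_lhs => rw [h2]
  congr 3
  push_cast
  ring

/-- `sin (a + i y) ≠ 0` when `sin a ≠ 0`. -/
lemma sin_ne {a : ℝ} (ha : Real.sin a ≠ 0) (y : ℝ) :
    Complex.sin (a + Complex.I * y) ≠ 0 := by
  intro h0
  have h1 := congrArg Complex.re h0
  rw [sin_re, Complex.zero_re] at h1
  exact mul_ne_zero ha (Real.cosh_pos y).ne' h1

/-- zeros of `sin` on the imaginary axis -/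
lemma sin_I_eq_zero (y : ℝ) : Complex.sin (Complex.I * y) = 0 ↔ y = 0 := by
  constructor
  · intro h
    rw [mul_comm, Complex.sin_mul_I] at h
    have h1 := (mul_eq_zero.1 h).resolve_right Complex.I_ne_zero
    rw [← Complex.ofReal_sinh, Complex.ofReal_eq_zero, Real.sinh_eq_zero] at h1
    exact h1
  · rintro rfl
    simp

/-- the derivative of `th a`. -/
lemma th_hasDerivAt {a : ℝ} (ha : 0 < Real.sin a) (y : ℝ) :
    HasDerivAt (th a) (2 * Real.sin (2 * a) / (Real.cosh (2 * y) - Real.cos (2 * a))) y := by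
  have hc := Real.cosh_pos y
  have h1 := (((tanh_hasDerivAt y).const_mul (Real.cos a / Real.sin a)).arctan).const_mul 2
  have h2 : 0 < Real.cosh (2 * y) - Real.cos (2 * a) := by
    rw [Real.cosh_two_mul, Real.cos_two_mul']
    have e1 := Real.cosh_sq y
    have e2 := Real.sin_sq_add_cos_sq a
    nlinarith [sq_nonneg (Real.sinh y), mul_pos ha ha]
  have h3 : 2 * (1 / (1 + (Real.cos a / Real.sin a * Real.tanh y) ^ 2) *
      (Real.cos a / Real.sin a * (1 / Real.cosh y ^ 2))) =
      2 * Real.sin (2 * a) / (Real.cosh (2 * y) - Real.cos (2 * a)) := by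
    have h4 : Real.cosh (2 * y) - Real.cos (2 * a) =
        2 * (Real.sin a ^ 2 * Real.cosh y ^ 2 + Real.cos a ^ 2 * Real.sinh y ^ 2) := by
      rw [Real.cosh_two_mul, Real.cos_two_mul']
      have e1 := Real.cosh_sq y
      have e2 := Real.sin_sq_add_cos_sq a
      have e3 : Real.cos a ^ 2 = 1 - Real.sin a ^ 2 := by linarith
      rw [e1, e3]
      ring
    have h5 : 0 < Real.sin a ^ 2 * Real.cosh y ^ 2 + Real.cos a ^ 2 * Real.sinh y ^ 2 := by
      rw [h4] at h2
      linarith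
    rw [h4, Real.sin_two_mul, Real.tanh_eq_sinh_div_cosh]
    have h6 : 1 + (Real.cos a / Real.sin a * (Real.sinh y / Real.cosh y)) ^ 2 =
        (Real.sin a ^ 2 * Real.cosh y ^ 2 + Real.cos a ^ 2 * Real.sinh y ^ 2) /
          (Real.sin a ^ 2 * Real.cosh y ^ 2) := by
      field_simp
    rw [h6]
    field_simp
  rw [h3] at h1
  exact h1

/-- `Th' ≤ 2`. -/
lemma Th_deriv_le (y : ℝ) : ∃ t : ℝ, HasDerivAt Th t y ∧ -3 ≤ t ∧ t ≤ 2 := by
  have h1 : HasDerivAt Th (2 * Real.sin (2 * (2 * la)) / (Real.cosh (2 * y) - Real.cos (2 * (2 * la))) -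
      2 * Real.sin (2 * la) / (Real.cosh (2 * y) - Real.cos (2 * la))) y :=
    (th_hasDerivAt sin_two_la_pos y).sub (th_hasDerivAt sin_la_pos y)
  have e1 : 2 * (2 * la) = Real.pi / 2 := by unfold la; ring
  have e2 : 2 * la = Real.pi / 4 := by unfold la; ring
  rw [e1, e2, Real.sin_pi_div_two, Real.cos_pi_div_two, Real.sin_pi_div_four,
    Real.cos_pi_div_four] at h1
  set s : ℝ := Real.sqrt 2 / 2 with hs
  have hs2 : s ^ 2 = 1 / 2 := by
    rw [hs, div_pow, Real.sq_sqrt (by norm_num)]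
    norm_num
  have hs0 : 0 < s := by positivity
  have hs1 : s < 0.708 := by nlinarith
  have hC : 1 ≤ Real.cosh (2 * y) := Real.one_le_cosh _
  set C : ℝ := Real.cosh (2 * y) with hCd
  have hCs : 0 < C - s := by linarith
  refine ⟨_, h1, ?_, ?_⟩
  · have h2 : 2 * s / (C - s) ≤ 2 / C + 3 := by
      rw [div_add' _ _ _ (by linarith : C ≠ 0), div_le_div_iff₀ hCs (by linarith)]
      nlinarith
    have h3 : 2 * 1 / (C - 0) = 2 / C := by rw [mul_one, sub_zero]
    rw [h3]
    linarith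
  · have h2 : 0 ≤ 2 * s / (C - s) := by positivity
    have h3 : 2 * 1 / (C - 0) ≤ 2 := by
      rw [mul_one, sub_zero, div_le_iff₀ (by linarith)]
      linarith
    linarith

/-- `Th` is Lipschitz. -/
lemma Th_lipschitz (y z : ℝ) : |Th y - Th z| ≤ 3 * |y - z| := by
  have hd : ∀ x, DifferentiableAt ℝ Th x := fun x => by
    obtain ⟨t, ht, -⟩ := Th_deriv_le x
    exact ht.differentiableAt
  have hb : ∀ x, ‖deriv Th x‖ ≤ 3 := fun x => by
    obtain ⟨t, ht, h1, h2⟩ := Th_deriv_le x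
    rw [ht.deriv, Real.norm_eq_abs, abs_le]
    constructor <;> linarith
  have h := Convex.norm_image_sub_le_of_norm_deriv_le (𝕜 := ℝ) (f := Th) (s := Set.univ) (C := 3)
    (fun x _ => hd x) (fun x _ => hb x) convex_univ (Set.mem_univ z) (Set.mem_univ y)
  simpa only [Real.norm_eq_abs] using h

/-- `th_lam'(0) = 2 (1 + sqrt 2) > 4`. -/
lemma th_la_deriv_zero : ∃ t : ℝ, HasDerivAt (th la) t 0 ∧ 4 < t := by
  have h1 := th_hasDerivAt sin_la_pos 0
  have e2 : 2 * la = Real.pi / 4 := by unfold la; ring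
  rw [e2, Real.sin_pi_div_four, Real.cos_pi_div_four, mul_zero, Real.cosh_zero] at h1
  set s : ℝ := Real.sqrt 2 / 2 with hs
  have hs2 : s ^ 2 = 1 / 2 := by
    rw [hs, div_pow, Real.sq_sqrt (by norm_num)]
    norm_num
  have hs0 : 0 < s := by positivity
  have hs1 : s < 1 := by nlinarith
  have hs3 : 2 / 3 < s := by nlinarith
  refine ⟨_, h1, ?_⟩
  rw [lt_div_iff₀ (by linarith)]
  linarith

/-- `|th a y| < pi`. -/
lemma abs_th_lt (a y : ℝ) : |th a y| < Real.pi := by
  unfold th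
  have h1 := Real.arctan_lt_pi_div_two (Real.cos a / Real.sin a * Real.tanh y)
  have h2 := Real.neg_pi_div_two_lt_arctan (Real.cos a / Real.sin a * Real.tanh y)
  rw [abs_lt]
  constructor <;> linarith

private lemma cot_pos {a : ℝ} (ha : 0 < a) (ha2 : a < Real.pi / 2) : 0 < Real.cos a / Real.sin a :=
  div_pos (Real.cos_pos_of_mem_Ioo ⟨by linarith [Real.pi_pos], ha2⟩)
    (Real.sin_pos_of_pos_of_lt_pi ha (by linarith))

private lemma th_nonneg {a y : ℝ} (ha : 0 < a) (ha2 : a < Real.pi / 2) (hy : 0 ≤ y) : 0 ≤ th a y := by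
  unfold th
  have h1 : 0 ≤ Real.tanh y := by
    rw [Real.tanh_eq_sinh_div_cosh]
    exact div_nonneg (Real.sinh_nonneg_iff.2 hy) (Real.cosh_pos y).le
  have h2 : 0 ≤ Real.cos a / Real.sin a * Real.tanh y := mul_nonneg (cot_pos ha ha2).le h1
  have h3 := Real.arctan_nonneg.2 h2
  linarith

/-- `|Th y| < pi`. -/
lemma abs_Th_lt (y : ℝ) : |Th y| < Real.pi := by
  have hp := Real.pi_pos
  have key : ∀ y : ℝ, 0 ≤ y → |Th y| < Real.pi := by
    intro y hy
    have h1 := abs_lt.1 (abs_th_lt (2 * la) y)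
    have h2 := abs_lt.1 (abs_th_lt la y)
    have h3 := th_nonneg (a := 2 * la) (by linarith [la_pos]) (by unfold la; linarith) hy
    have h4 := th_nonneg (a := la) la_pos (by unfold la; linarith) hy
    unfold Th
    rw [abs_lt]
    constructor <;> linarith [h1.2, h2.2]
  rcases le_total 0 y with hy | hy
  · exact key y hy
  · have h1 := key (-y) (by linarith)
    rwa [Th_neg, abs_neg] at h1

/-- for `0 < a < pi / 2`, `th a` is strictly increasing. -/
lemma th_strictMono {a : ℝ} (ha : 0 < a) (ha2 : a < Real.pi / 2) : StrictMono (th a) := by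
  intro x y hxy
  unfold th
  refine mul_lt_mul_of_pos_left ?_ (by norm_num)
  exact Real.arctan_strictMono (mul_lt_mul_of_pos_left (tanh_lt hxy) (cot_pos ha ha2))

/-- `th_eps(y) -> pi` as `eps -> 0+`, uniformly for `y ≥ d > 0`. -/
lemma th_eps_tendsto {d η : ℝ} (hd : 0 < d) (hη : 0 < η) :
    ∃ ε0 > 0, ∀ ε, 0 < ε → ε < ε0 → ∀ y, d ≤ y → Real.pi - η < th ε y ∧ th ε y < Real.pi := by
  have hT : 0 < Real.tanh d := by
    have := tanh_lt hd
    rwa [Real.tanh_zero] at this
  have h1 : Tendsto (fun ε : ℝ => Real.sin ε) (𝓝[>] 0) (𝓝[>] 0) := by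
    rw [tendsto_nhdsWithin_iff]
    constructor
    · have := Real.continuous_sin.tendsto 0
      rw [Real.sin_zero] at this
      exact this.mono_left nhdsWithin_le_nhds
    · filter_upwards [Ioo_mem_nhdsGT Real.pi_pos] with ε hε
      exact Real.sin_pos_of_pos_of_lt_pi hε.1 hε.2
  have h2 : Tendsto (fun ε : ℝ => (Real.sin ε)⁻¹) (𝓝[>] 0) atTop := tendsto_inv_nhdsGT_zero.comp h1
  have h3 : Tendsto (fun ε : ℝ => Real.cos ε) (𝓝[>] 0) (𝓝 1) := by
    have := Real.continuous_cos.tendsto 0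
    rw [Real.cos_zero] at this
    exact this.mono_left nhdsWithin_le_nhds
  have h4 : Tendsto (fun ε : ℝ => Real.cos ε / Real.sin ε * Real.tanh d) (𝓝[>] 0) atTop :=
    (h3.pos_mul_atTop one_pos h2).atTop_mul_const hT
  have h5 : Tendsto (fun ε : ℝ => th ε d) (𝓝[>] 0) (𝓝 Real.pi) := by
    have h6 := (Real.tendsto_arctan_atTop.mono_right nhdsWithin_le_nhds).comp h4
    have h7 := h6.const_mul 2
    rw [mul_div_cancel₀ Real.pi (by norm_num : (2 : ℝ) ≠ 0)] at h7
    exact h7
  have h6 : ∀ᶠ ε in 𝓝[>] (0 : ℝ), Real.pi - η < th ε d :=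
    h5.eventually (lt_mem_nhds (by linarith))
  have h7 : ∀ᶠ ε in 𝓝[>] (0 : ℝ), ε < Real.pi / 2 := by
    filter_upwards [Ioo_mem_nhdsGT (by positivity : (0 : ℝ) < Real.pi / 2)] with ε hε
    exact hε.2
  obtain ⟨ε0, hε0, hsub⟩ := mem_nhdsGT_iff_exists_Ioo_subset.1 (h6.and h7)
  refine ⟨ε0, hε0, fun ε hε hεε y hy => ?_⟩
  obtain ⟨h8, h9⟩ := hsub ⟨hε, hεε⟩
  refine ⟨h8.trans_le ((th_strictMono hε h9).monotone hy), ?_⟩
  exact (abs_lt.1 (abs_th_lt ε y)).2

end Pool.Agent.CYL.B
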