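import Pool.Agent.CYL.B.Two
import Pool.Agent.CYL.B.Trig
import Pool.Agent.CYL.B.Factor

/-!
CYL, part B, (B2): the Bethe equations in real form.
-/

namespace Pool.Agent.CYL.B

open Filter Topology Finset

/-- If `z = (-1)^m |z| e^(i t / 2)`, `z ≠ 0`, then `z + (-1)^m conj z = 0` iff
`t ∈ pi (2 ℤ + 1 - m)`. -/
theorem phase_iff (m : ℕ) {z : ℂ} {t : ℝ} (hz : z ≠ 0)
    (h : z = (-1) ^ m * ((‖z‖ : ℂ) * Complex.exp (Complex.I * (t / 2)))) :
    z + (-1) ^ m * (starRingEnd ℂ) z = 0 ↔ ∃ k : ℤ, t = Real.pi * (2 * k + 1 - m) := by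
  have hn : ((‖z‖ : ℝ) : ℂ) ≠ 0 := by
    exact_mod_cast (norm_ne_zero_iff.mpr hz)
  have hc : (starRingEnd ℂ) z =
      (-1) ^ m * ((‖z‖ : ℂ) * Complex.exp (-(Complex.I * (t / 2)))) := by
    conv_lhs => rw [h]
    rw [map_mul, map_mul, map_pow, map_neg, map_one, Complex.conj_ofReal, ← Complex.exp_conj,
      map_mul, Complex.conj_I, map_div₀, Complex.conj_ofReal, Complex.conj_ofNat]
    congr 3
    ring
  have hsq : ((-1 : ℂ)) ^ m * (-1) ^ m = 1 := neg_one_pow_sq m
  have h1 : z + (-1) ^ m * (starRingEnd ℂ) z =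
      (-1) ^ m * (‖z‖ : ℂ) * (Complex.exp (Complex.I * (t / 2)) +
        (-1) ^ m * Complex.exp (-(Complex.I * (t / 2)))) := by
    rw [hc]
    conv_lhs => rw [h]
    simp only [norm_mul, norm_pow, norm_neg, norm_one, one_pow, one_mul]
    have : ‖((‖z‖ : ℝ) : ℂ)‖ = ‖z‖ := by simp
    have h3 : ‖Complex.exp (Complex.I * (t / 2))‖ = 1 := by
      have : Complex.I * ((t : ℂ) / 2) = ((t / 2 : ℝ) : ℂ) * Complex.I := by push_cast; ring
      rw [this, Complex.norm_exp_ofReal_mul_I]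
    rw [this, h3, mul_one]
    ring
  have h2 : z + (-1) ^ m * (starRingEnd ℂ) z = 0 ↔
      Complex.exp (Complex.I * (t / 2)) + (-1) ^ m * Complex.exp (-(Complex.I * (t / 2))) = 0 := by
    rw [h1]
    constructor
    · intro h4
      rcases mul_eq_zero.mp h4 with h5 | h5
      · exfalso
        rcases mul_eq_zero.mp h5 with h6 | h6
        · rw [h6] at hsq; simp at hsq
        · exact hn h6
      · exact h5
    · intro h4; rw [h4, mul_zero]
  rw [h2]
  have h3 : Complex.exp (Complex.I * (t / 2)) + (-1) ^ m * Complex.exp (-(Complex.I * (t / 2))) = 0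
      ↔ Complex.exp (Complex.I * t) = Complex.exp (Complex.I * (Real.pi * (1 - m))) := by
    have e1 : Complex.exp (Complex.I * (Real.pi * (1 - m))) = - (-1) ^ m := by
      have : Complex.I * ((Real.pi : ℂ) * (1 - m)) =
          (Real.pi : ℂ) * Complex.I - m * (Real.pi * Complex.I) := by ring
      rw [this, Complex.exp_sub, Complex.exp_nat_mul, Complex.exp_pi_mul_I]
      rcases neg_one_pow_eq_or ℂ m with h5 | h5 <;> rw [h5] <;> norm_num
    rw [e1]
    have e2 : Complex.exp (Complex.I * t) =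
        Complex.exp (Complex.I * (t / 2)) * Complex.exp (Complex.I * (t / 2)) := by
      rw [← Complex.exp_add]; congr 1; ring
    have e3 : Complex.exp (Complex.I * (t / 2)) * Complex.exp (-(Complex.I * (t / 2))) = 1 := by
      rw [← Complex.exp_add, add_neg_cancel, Complex.exp_zero]
    have e4 : Complex.exp (Complex.I * (t / 2)) ≠ 0 := Complex.exp_ne_zero _
    rw [e2]
    constructor
    · intro h4
      have : Complex.exp (Complex.I * (t / 2)) * (Complex.exp (Complex.I * (t / 2)) +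
          (-1) ^ m * Complex.exp (-(Complex.I * (t / 2)))) = 0 := by rw [h4, mul_zero]
      linear_combination this - (-1) ^ m * e3
    · intro h4
      have : Complex.exp (Complex.I * (t / 2)) * (Complex.exp (Complex.I * (t / 2)) +
          (-1) ^ m * Complex.exp (-(Complex.I * (t / 2)))) = 0 := by
        linear_combination h4 + (-1) ^ m * e3
      rcases mul_eq_zero.mp this with h5 | h5
      · exact absurd h5 e4
      · exact h5
  rw [h3, Complex.exp_eq_exp_iff_exists_int]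
  constructor
  · rintro ⟨k, hk⟩
    refine ⟨k, ?_⟩
    have h4 : Complex.I * ((t : ℂ) - Real.pi * (2 * k + 1 - m)) = 0 := by
      linear_combination hk
    rcases mul_eq_zero.mp h4 with h5 | h5
    · exact absurd h5 Complex.I_ne_zero
    · have h6 : (t : ℂ) = ((Real.pi * (2 * k + 1 - m) : ℝ) : ℂ) := by
        push_cast; linear_combination h5
      exact_mod_cast h6
  · rintro ⟨k, hk⟩
    refine ⟨k, ?_⟩
    rw [hk]; push_cast; ring

/-- products of polar forms -/
lemma prod_polar {m : ℕ} (f : Fin m → ℂ) (t : Fin m → ℝ)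
    (h : ∀ j, f j = (‖f j‖ : ℂ) * Complex.exp (Complex.I * (t j / 2))) :
    ∏ j, f j = ((‖∏ j, f j‖ : ℝ) : ℂ) *
      Complex.exp (Complex.I * (((∑ j, t j : ℝ) : ℂ) / 2)) := by
  have h1 : ∏ j, f j = ∏ j, ((‖f j‖ : ℂ) * Complex.exp (Complex.I * (t j / 2))) :=
    Finset.prod_congr rfl (fun j _ => h j)
  rw [norm_prod]
  conv_lhs => rw [h1]
  rw [Finset.prod_mul_distrib, ← Complex.exp_sum]
  congr 1
  · push_cast; rfl
  · congr 1
    push_cast
    rw [Finset.sum_div, Finset.mul_sum]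

/-- (B2): if `q_w` has product form, `B(y) = (-1)^m |B(y)| e^(i Z_w(y) / 2)`, `B(y) ≠ 0`. -/
theorem BB_polar {p m l : ℕ} (D : BData p m l) {w : ℝ} (hw : w ∈ Set.Ico 0 la)
    {c : ℝ} (hc : c ≠ 0) {v : Fin m → ℝ} (hq : ∀ u, D.q w u = pr c v u) (y : ℝ) :
    BB D w y ≠ 0 ∧
    BB D w y = (-1) ^ m * ((‖BB D w y‖ : ℂ) * Complex.exp (Complex.I * (ZW p w v y / 2))) := by
  have s1 := sin_sub_pos hw
  have s2 := sin_add_pos hw
  have s3 := sin_la_pos
  have s4 := sin_two_la_pos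
  -- the factors
  have eA : ff p w (la + Complex.I * y) =
      (Complex.sin (((la - w : ℝ) : ℂ) + Complex.I * y) *
        Complex.sin (((la + w : ℝ) : ℂ) + Complex.I * y)) ^ p := by
    unfold ff
    congr 2
    · congr 1; push_cast; ring
    · congr 1; push_cast; ring
  have eB : pr c v (la + Complex.I * y) =
      c * ∏ j, Complex.sin ((la : ℂ) + Complex.I * ((y - v j : ℝ) : ℂ)) := by
    unfold pr
    congr 1
    apply Finset.prod_congr rfl
    intro j _
    congr 1; push_cast; ring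
  have eC : pr c v (-(2 * la) + Complex.I * y) =
      c * ∏ j, Complex.sin (-((2 * la : ℝ) : ℂ) + Complex.I * ((y - v j : ℝ) : ℂ)) := by
    unfold pr
    congr 1
    apply Finset.prod_congr rfl
    intro j _
    congr 1; push_cast; ring
  -- polar forms
  have pA1 := sin_polar s1 y
  have pA2 := sin_polar s2 y
  have nA1 := sin_ne s1.ne' y
  have nA2 := sin_ne s2.ne' y
  have pB : ∏ j, Complex.sin ((la : ℂ) + Complex.I * ((y - v j : ℝ) : ℂ)) =
      ((‖∏ j, Complex.sin ((la : ℂ) + Complex.I * ((y - v j : ℝ) : ℂ))‖ : ℝ) : ℂ) *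
        Complex.exp (Complex.I * (((∑ j, th la (y - v j) : ℝ) : ℂ) / 2)) :=
    prod_polar _ _ (fun j => sin_polar s3 (y - v j))
  have pC : ∏ j, (-Complex.sin (-((2 * la : ℝ) : ℂ) + Complex.I * ((y - v j : ℝ) : ℂ))) =
      ((‖∏ j, (-Complex.sin (-((2 * la : ℝ) : ℂ) + Complex.I * ((y - v j : ℝ) : ℂ)))‖ : ℝ) : ℂ) *
        Complex.exp (Complex.I * (((∑ j, (-th (2 * la) (y - v j)) : ℝ) : ℂ) / 2)) := by
    apply prod_polar
    intro j
    have h := sin_polar_neg s4 (y - v j)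
    rw [norm_neg]
    conv_lhs => rw [h]
    rw [neg_neg]
    congr 2
    push_cast; ring
  have eC2 : ∏ j, Complex.sin (-((2 * la : ℝ) : ℂ) + Complex.I * ((y - v j : ℝ) : ℂ)) =
      (-1) ^ m * ∏ j, (-Complex.sin (-((2 * la : ℝ) : ℂ) + Complex.I * ((y - v j : ℝ) : ℂ))) := by
    rw [Finset.prod_neg, Finset.card_univ, Fintype.card_fin, ← mul_assoc, neg_one_pow_sq, one_mul]
  set PB := ∏ j, Complex.sin ((la : ℂ) + Complex.I * ((y - v j : ℝ) : ℂ)) with hPB
  set PC := ∏ j, (-Complex.sin (-((2 * la : ℝ) : ℂ) + Complex.I * ((y - v j : ℝ) : ℂ))) with hPC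
  have nB : PB ≠ 0 := by
    rw [hPB]; exact Finset.prod_ne_zero_iff.mpr (fun j _ => sin_ne s3.ne' _)
  have nC : PC ≠ 0 := by
    rw [hPC]
    apply Finset.prod_ne_zero_iff.mpr
    intro j _
    apply neg_ne_zero.mpr
    have : Real.sin (-(2 * la)) ≠ 0 := by rw [Real.sin_neg]; exact neg_ne_zero.mpr s4.ne'
    have h := sin_ne this (y - v j)
    have e : ((-(2 * la) : ℝ) : ℂ) = -((2 * la : ℝ) : ℂ) := by push_cast; ring
    rw [e] at h
    exact h
  set A1 := Complex.sin (((la - w : ℝ) : ℂ) + Complex.I * y) with hA1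
  set A2 := Complex.sin (((la + w : ℝ) : ℂ) + Complex.I * y) with hA2
  have hB : BB D w y = (-1) ^ m * ((A1 * A2) ^ p * ((c : ℂ) ^ 2 * (PB * PC))) := by
    unfold BB
    rw [hq, hq, eA, eB, eC, eC2]
    ring
  have hcc : (c : ℂ) ≠ 0 := by exact_mod_cast hc
  have hne : BB D w y ≠ 0 := by
    rw [hB]
    refine mul_ne_zero (pow_ne_zero _ (by norm_num)) (mul_ne_zero (pow_ne_zero _ (mul_ne_zero nA1 nA2)) (mul_ne_zero (pow_ne_zero _ hcc) (mul_ne_zero nB nC)))
  refine ⟨hne, ?_⟩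
  have hnorm : ‖BB D w y‖ = (‖A1‖ * ‖A2‖) ^ p * (c ^ 2 * (‖PB‖ * ‖PC‖)) := by
    rw [hB]
    simp [norm_mul, norm_pow]
  rw [hnorm]
  conv_lhs => rw [hB, pA1, pA2, pB, pC]
  have hexp : Complex.exp (Complex.I * (ZW p w v y / 2)) =
      (Complex.exp (Complex.I * (th (la - w) y / 2)) * Complex.exp (Complex.I * (th (la + w) y / 2))) ^ p *
      (Complex.exp (Complex.I * (((∑ j, th la (y - v j) : ℝ) : ℂ) / 2)) *
        Complex.exp (Complex.I * (((∑ j, (-th (2 * la) (y - v j)) : ℝ) : ℂ) / 2))) := by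
    rw [← Complex.exp_add, ← Complex.exp_add, ← Complex.exp_nat_mul, ← Complex.exp_add]
    congr 1
    unfold ZW Th
    rw [Finset.sum_sub_distrib, Finset.sum_neg_distrib]
    push_cast
    ring
  rw [hexp]
  push_cast
  ring

/-- Quantisation: `Z_w ∈ 2 pi (ℤ + (m + 1) / 2)` at the roots. -/
theorem quant {p m l : ℕ} (D : BData p m l) {w : ℝ} (hw : w ∈ Set.Ico 0 la)
    {c : ℝ} (hc : c ≠ 0) {v : Fin m → ℝ} (hq : ∀ u, D.q w u = pr c v u) (j : Fin m) :
    ∃ k : ℤ, ZW p w v (v j) = Real.pi * (2 * k + 1 - m) := by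
  obtain ⟨hne, hpol⟩ := BB_polar D hw hc hq (v j)
  have h0 : D.q w (Complex.I * (v j)) = 0 := by
    rw [hq, pr_eq_zero_iff hc]
    exact ⟨j, rfl⟩
  exact (phase_iff m hne hpol).mp (BB_zero_of_root D hw h0)

/-- the sum over `Th` is odd -/
theorem sum_Th_neg {m : ℕ} {v : Fin m → ℝ} (hv : ∀ j, v (Fin.rev j) = - v j) (y : ℝ) :
    ∑ j, Th (-y - v j) = - ∑ j, Th (y - v j) := by
  rw [← Finset.sum_neg_distrib, ← Equiv.sum_comp Fin.revPerm]
  apply Finset.sum_congr rfl
  intro j _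
  rw [Fin.revPerm_apply, hv, ← Th_neg]
  congr 1; ring

/-- `Z` is odd for symmetric roots. -/
theorem ZW_neg (p : ℕ) (w : ℝ) {m : ℕ} {v : Fin m → ℝ} (hv : ∀ j, v (Fin.rev j) = - v j)
    (y : ℝ) : ZW p w v (-y) = - ZW p w v y := by
  unfold ZW
  rw [sum_Th_neg hv, th_neg, th_neg]; ring

theorem ZH_neg (n : ℕ) {m : ℕ} {v : Fin m → ℝ} (hv : ∀ j, v (Fin.rev j) = - v j)
    (y : ℝ) : ZH n v (-y) = - ZH n v y := by
  unfold ZH
  rw [sum_Th_neg hv, th_neg]; ring

theorem ZW_zero_eq (p : ℕ) {m : ℕ} (v : Fin m → ℝ) (y : ℝ) : ZW p 0 v y = ZH (2 * p) v y := by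
  unfold ZW ZH
  rw [sub_zero, add_zero]; push_cast; ring

theorem HB_of_GW {p m : ℕ} {q : ℂ → ℂ} (h : GW p m 0 q) : HB (2 * p) m q := by
  obtain ⟨c, v, h1, h2, h3, h4, h5⟩ := h
  exact ⟨c, v, h1, h2, h3, h4, fun j => by rw [← ZW_zero_eq]; exact h5 j⟩

theorem ZW_continuous (p : ℕ) (w : ℝ) {m : ℕ} (v : Fin m → ℝ) : Continuous (ZW p w v) := by
  unfold ZW
  have h1 := th_continuous (la - w)
  have h2 := th_continuous (la + w)
  have h3 := Th_continuous
  exact (continuous_const.mul (h1.add h2)).sub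
    (continuous_finset_sum _ (fun j _ => h3.comp (continuous_id.sub continuous_const)))

theorem ZH_continuous (n : ℕ) {m : ℕ} (v : Fin m → ℝ) : Continuous (ZH n v) := by
  unfold ZH
  have h1 := th_continuous la
  have h3 := Th_continuous
  exact (continuous_const.mul h1).sub
    (continuous_finset_sum _ (fun j _ => h3.comp (continuous_id.sub continuous_const)))

/-- joint continuity of `Z_w` in `(w, roots, y)`. -/
theorem ZW_continuousOn (p m : ℕ) :
    ContinuousOn (fun x : ℝ × (Fin m → ℝ) × ℝ => ZW p x.1 x.2.1 x.2.2)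
      (Set.Ico 0 la ×ˢ Set.univ) := by
  intro x hx
  have hw : x.1 ∈ Set.Ico 0 la := hx.1
  apply ContinuousAt.continuousWithinAt
  unfold ZW
  have h1 : ContinuousAt (fun x : ℝ × (Fin m → ℝ) × ℝ => th (la - x.1) x.2.2) x := by
    have h := th_continuousAt (a := la - x.1) (y := x.2.2) (sin_sub_pos hw).ne'
    exact ContinuousAt.comp (f := fun x : ℝ × (Fin m → ℝ) × ℝ => (la - x.1, x.2.2))
      (g := fun z : ℝ × ℝ => th z.1 z.2) h (by fun_prop)
  have h2 : ContinuousAt (fun x : ℝ × (Fin m → ℝ) × ℝ => th (la + x.1) x.2.2) x := by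
    have h := th_continuousAt (a := la + x.1) (y := x.2.2) (sin_add_pos hw).ne'
    exact ContinuousAt.comp (f := fun x : ℝ × (Fin m → ℝ) × ℝ => (la + x.1, x.2.2))
      (g := fun z : ℝ × ℝ => th z.1 z.2) h (by fun_prop)
  have h3 : ContinuousAt (fun x : ℝ × (Fin m → ℝ) × ℝ => ∑ j, Th (x.2.2 - x.2.1 j)) x := by
    apply Continuous.continuousAt
    apply continuous_finset_sum
    intro j _
    exact Th_continuous.comp (by fun_prop)
  exact (continuousAt_const.mul (h1.add h2)).sub h3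

end Pool.Agent.CYL.B
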