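import Pool.Agent.CYL.B.Def
import Pool.Agent.CYL.B.CofA

/-!
CYL, part B: coefficients of trigonometric polynomials.
`tp m c u = sum_(j ≤ m) c_j e^(i (2 j - m) u)`.  A trigonometric polynomial is determined by
its values at `m + 1` points `u_k` with different `e^(2 i u_k)` (Vandermonde), and the
coefficients are linear combinations (not depending on the polynomial) of these values.
-/

namespace Pool.Agent.CYL.B

open Filter Topology Finset

/-- Interpolation: the coefficients are fixed linear combinations of finitely many values. -/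
theorem tp_interp (m : ℕ) : ∃ (u : ℕ → ℂ) (A : ℕ → ℕ → ℂ), ∀ (c : ℕ → ℂ) (j : ℕ), j ≤ m →
    c j = ∑ k ∈ range (m + 1), A j k * tp m c (u k) := by
  refine ⟨fun k => Real.pi * k / (m + 1),
    fun j k => Complex.exp (-(Complex.I * ((2 * j : ℂ) - m) * (Real.pi * k / (m + 1)))) / (m + 1),
    fun c j hj => ?_⟩
  have h := cf_tp c hj
  unfold cf at h
  rw [Finset.sum_div] at h
  rw [← h]
  refine Finset.sum_congr rfl fun k _ => ?_
  ring

/-- uniqueness of the coefficients -/
theorem tp_unique {m : ℕ} {c d : ℕ → ℂ} (h : ∀ u, tp m c u = tp m d u) :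
    ∀ j ≤ m, c j = d j := by
  intro j hj
  rw [← cf_tp c hj, ← cf_tp d hj, funext h]

theorem cf_tendsto {m : ℕ} {f : ℕ → ℂ → ℂ} {g : ℂ → ℂ}
    (h : ∀ u, Tendsto (fun n => f n u) atTop (𝓝 (g u))) (j : ℕ) :
    Tendsto (fun n => cf m (f n) j) atTop (𝓝 (cf m g j)) := by
  unfold cf
  refine Tendsto.div_const ?_ _
  exact tendsto_finsetSum _ fun k _ => (h _).mul tendsto_const_nhds

theorem tp_tendsto {m : ℕ} {c : ℕ → ℕ → ℂ} {d : ℕ → ℂ}
    (h : ∀ j, Tendsto (fun n => c n j) atTop (𝓝 (d j))) (u : ℂ) :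
    Tendsto (fun n => tp m (c n) u) atTop (𝓝 (tp m d u)) := by
  unfold tp
  exact tendsto_finsetSum _ fun k _ => (h _).mul tendsto_const_nhds

/-- pointwise limits of trigonometric polynomials: the coefficients converge. -/
theorem tp_limit {m : ℕ} {f : ℕ → ℂ → ℂ} {g : ℂ → ℂ}
    (hf : ∀ n, ∃ c, ∀ u, f n u = tp m c u) (h : ∀ u, Tendsto (fun n => f n u) atTop (𝓝 (g u))) :
    ∃ (c : ℕ → ℕ → ℂ) (d : ℕ → ℂ), (∀ n u, f n u = tp m (c n) u) ∧ (∀ u, g u = tp m d u) ∧
      ∀ j, Tendsto (fun n => c n j) atTop (𝓝 (d j)) := by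
  have h1 : ∀ n u, f n u = tp m (cf m (f n)) u := by
    intro n u
    obtain ⟨c, hc⟩ := hf n
    have e : f n = tp m c := funext hc
    rw [e]
    exact tp_congr (fun j hj => (cf_tp c hj).symm) u
  refine ⟨fun n j => cf m (f n) j, cf m g, h1, fun u => ?_, fun j => cf_tendsto h j⟩
  refine tendsto_nhds_unique (h u) ?_
  have := tp_tendsto (m := m) (fun j => cf_tendsto (m := m) h j) u
  exact this.congr fun n => (h1 n u).symm

/-- pointwise limits of trigonometric polynomials are locally uniform. -/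
theorem tp_locunif {m : ℕ} {f : ℕ → ℂ → ℂ} {g : ℂ → ℂ}
    (hf : ∀ n, ∃ c, ∀ u, f n u = tp m c u) (h : ∀ u, Tendsto (fun n => f n u) atTop (𝓝 (g u))) :
    TendstoLocallyUniformly f g atTop := by
  obtain ⟨c, d, h1, h2, h3⟩ := tp_limit hf h
  rw [Metric.tendstoLocallyUniformly_iff]
  intro ε hε x
  set B : ℝ := Real.exp (3 * m * (‖x‖ + 1)) with hB
  have hB0 : 0 < B := Real.exp_pos _
  have h4 : Tendsto (fun n => ∑ j ∈ range (m + 1), ‖d j - c n j‖ * B) atTop (𝓝 0) := by
    have : Tendsto (fun n => ∑ j ∈ range (m + 1), ‖d j - c n j‖ * B) atTop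
        (𝓝 (∑ j ∈ range (m + 1), ‖d j - d j‖ * B)) :=
      tendsto_finsetSum _ fun j _ => ((tendsto_const_nhds.sub (h3 j)).norm).mul_const B
    simpa using this
  refine ⟨Metric.ball x 1, Metric.ball_mem_nhds x one_pos, ?_⟩
  filter_upwards [h4.eventually_lt_const hε] with n hn
  intro y hy
  refine lt_of_le_of_lt ?_ hn
  rw [dist_eq_norm, h1 n y, h2 y]
  unfold tp
  rw [← Finset.sum_sub_distrib]
  refine (norm_sum_le _ _).trans (Finset.sum_le_sum fun j hj => ?_)
  rw [← sub_mul, norm_mul]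
  refine mul_le_mul_of_nonneg_left ?_ (norm_nonneg _)
  have hj' : (j : ℝ) ≤ m := by exact_mod_cast Nat.lt_succ_iff.mp (mem_range.mp hj)
  have hy' : ‖y‖ ≤ ‖x‖ + 1 := by
    have := norm_le_norm_add_norm_sub' y x
    have h5 : ‖y - x‖ < 1 := by simpa [dist_eq_norm] using hy
    linarith
  refine (Complex.norm_exp_le_exp_norm _).trans ?_
  rw [hB]
  refine Real.exp_le_exp.2 ?_
  rw [norm_mul, norm_mul, Complex.norm_I, one_mul]
  have h6 : ‖(2 * j : ℂ) - m‖ ≤ 3 * m := by
    refine (norm_sub_le _ _).trans ?_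
    rw [norm_mul, Complex.norm_natCast, Complex.norm_natCast]
    simp only [Complex.norm_ofNat]
    linarith
  exact mul_le_mul h6 hy' (norm_nonneg _) (by positivity)

theorem tp_reflect (m : ℕ) (c : ℕ → ℂ) (u : ℂ) :
    tp m (fun j => c (m - j)) u = tp m c (-u) := by
  unfold tp
  rw [← Finset.sum_range_reflect]
  refine Finset.sum_congr rfl fun j hj => ?_
  have hj' : j ≤ m := Nat.lt_succ_iff.mp (mem_range.mp hj)
  have e1 : m + 1 - 1 - j = m - j := by omega
  have e2 : m - (m - j) = j := by omega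
  simp only [e1, e2]
  congr 2
  rw [Nat.cast_sub hj']
  ring

theorem tp_conj (m : ℕ) (c : ℕ → ℂ) (u : ℂ) :
    (starRingEnd ℂ) (tp m c u) = tp m (fun j => (starRingEnd ℂ) (c j)) (-(starRingEnd ℂ) u) := by
  unfold tp
  rw [map_sum]
  refine Finset.sum_congr rfl fun j _ => ?_
  rw [map_mul, ← Complex.exp_conj]
  congr 2
  simp only [map_mul, map_sub, Complex.conj_I, Complex.conj_natCast, map_ofNat]
  ring

/-- Real, continuous coefficients of `q_w`: `q_w(u) = i^m sum_j r_j(w) e^(i (2 j - m) u)`. -/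
theorem coef_real {p m l : ℕ} (D : BData p m l) : ∃ r : ℝ → ℕ → ℝ,
    (∀ j, ContinuousOn (fun w => r w j) (Set.Ico 0 la)) ∧
    (∀ w ∈ Set.Ico 0 la, r w m ≠ 0) ∧
    (∀ w ∈ Set.Ico 0 la, ∀ j ≤ m, r w (m - j) = (-1) ^ m * r w j) ∧
    ∀ w ∈ Set.Ico 0 la, ∀ u, D.q w u = Complex.I ^ m * tp m (fun j => (r w j : ℂ)) u := by
  have hI : Complex.I ^ m ≠ 0 := pow_ne_zero m Complex.I_ne_zero
  -- symmetry of the coefficients
  have s1 : ∀ w ∈ Set.Ico 0 la, ∀ j ≤ m,
      cf m (D.q w) (m - j) = (-1) ^ m * cf m (D.q w) j := by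
    intro w hw
    have h1 : ∀ u, tp m (fun j => cf m (D.q w) (m - j)) u =
        tp m (fun j => (-1) ^ m * cf m (D.q w) j) u := by
      intro u
      rw [tp_reflect, ← (ca_coef D hw).2, D.q_neg w hw u, (ca_coef D hw).2 u]
      unfold tp
      rw [Finset.mul_sum]
      exact Finset.sum_congr rfl fun j _ => by ring
    exact tp_unique h1
  have s2 : ∀ w ∈ Set.Ico 0 la, ∀ j ≤ m,
      (starRingEnd ℂ) (cf m (D.q w) j) = cf m (D.q w) (m - j) := by
    intro w hw
    have h1 : ∀ u, tp m (fun j => (starRingEnd ℂ) (cf m (D.q w) j)) u =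
        tp m (fun j => cf m (D.q w) (m - j)) u := by
      intro u
      have h2 := D.q_conj w hw (-(starRingEnd ℂ) u)
      rw [(ca_coef D hw).2, tp_conj, (ca_coef D hw).2 ((starRingEnd ℂ) (-(starRingEnd ℂ) u))] at h2
      rw [tp_reflect]
      simpa using h2
    exact tp_unique h1
  have s3 : ∀ w ∈ Set.Ico 0 la, ∀ j ≤ m,
      (((cf m (D.q w) j / Complex.I ^ m).re : ℝ) : ℂ) = cf m (D.q w) j / Complex.I ^ m := by
    intro w hw j hj
    rw [← Complex.conj_eq_iff_re, map_div₀, s2 w hw j hj, s1 w hw j hj, map_pow, Complex.conj_I,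
      neg_pow Complex.I m]
    have h1 : ((-1 : ℂ)) ^ m ≠ 0 := pow_ne_zero m (by norm_num)
    exact mul_div_mul_left _ _ h1
  refine ⟨fun w j => (cf m (D.q w) j / Complex.I ^ m).re, fun j => ?_, fun w hw => ?_,
    fun w hw j hj => ?_, fun w hw u => ?_⟩
  · exact Complex.continuous_re.comp_continuousOn ((ca_cont D j).div_const _)
  · intro h
    have h1 := s3 w hw m le_rfl
    simp only at h
    rw [h, Complex.ofReal_zero] at h1
    have h2 := (div_eq_zero_iff.1 h1.symm).resolve_right hI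
    exact (ca_coef D hw).1 h2
  · have h1 := s3 w hw (m - j) (Nat.sub_le m j)
    have h2 := s3 w hw j hj
    apply Complex.ofReal_injective
    push_cast
    rw [h1, h2, s1 w hw j hj]
    ring
  · rw [(ca_coef D hw).2 u]
    unfold tp
    rw [Finset.mul_sum]
    refine Finset.sum_congr rfl fun j hj => ?_
    simp only
    rw [s3 w hw j (Nat.lt_succ_iff.mp (mem_range.mp hj)), ← mul_assoc, mul_div_cancel₀ _ hI]

/-- The real function `qr r m y` with `q (i y) = i^m qr`. -/
noncomputable def qr (r : ℕ → ℝ) (m : ℕ) (y : ℝ) : ℝ :=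
  ∑ j ∈ range (m + 1), r j * Real.exp (-((2 * j : ℝ) - m) * y)

theorem tp_I_mul (r : ℕ → ℝ) (m : ℕ) (y : ℝ) :
    tp m (fun j => (r j : ℂ)) (Complex.I * y) = (qr r m y : ℂ) := by
  unfold tp qr
  push_cast
  refine Finset.sum_congr rfl fun j _ => ?_
  congr 2
  linear_combination ((2 * j : ℂ) - m) * y * Complex.I_mul_I

end Pool.Agent.CYL.B
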