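import Pool.Agent.CYL.B.IfTPa
import Pool.Agent.CYL.B.IfTPb

/-!
CYL, interface A/PF -> B: `q` is a trigonometric polynomial of degree exactly `2 p - l`.
-/

namespace Pool.Agent.CYL

open Complex Finset
open Pool.Agent.BEX Pool.Agent.CYL.B

private theorem bb_ne_zero : bb ≠ 0 := by
  have hs : 0 < Real.sin (Real.pi / 8) :=
    Real.sin_pos_of_pos_of_lt_pi (by positivity) (by linarith [Real.pi_pos])
  have h2 : (0 : ℝ) < Real.sqrt 2 := by positivity
  unfold bb
  rw [Ne, Complex.ofReal_eq_zero]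
  exact (Real.sqrt_pos.2 (by positivity)).ne'

/-- `q` is a trigonometric polynomial of degree exactly `2 p - l`. -/
theorem qf_tp {p l : ℕ} (hl : l = 1 ∨ l = 2) (hp : l ≤ p) {w : ℝ}
    (hw : w ∈ Set.Ico 0 (Real.pi / 8)) (psi : Sts (2 * p) l → ℝ) (h0 : ∀ m, 0 ≤ psi m)
    (hsupp : ∀ m, ¬ Chi m → psi m = 0) (harc : ∃ m, Arcless m ∧ 0 < psi m) :
    ∃ c : ℕ → ℂ, c (2 * p - l) ≠ 0 ∧
      ∀ u, qf (Uw (2 * p) w) psi u = tp (2 * p - l) c u := by
  classical
  set K : ℂ := bb ^ l * (1 / (2 * I)) ^ (2 * p - l) with hK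
  set ph : Sts (2 * p) l → ℂ := fun m => ∏ i ∈ emps m, exp (-(I * Uw (2 * p) w i)) with hph
  have key : ∀ m : Sts (2 * p) l, TPc (2 * p - l) (fun u => (psi m : ℂ) * Os (Uw (2 * p) w) u m)
      (if Arcless m then K * ((psi m : ℂ) * ph m) else 0) := by
    intro m
    by_cases hm : Chi m
    · obtain ⟨k, hk, hk0⟩ := emps_card hm
      have h1 := TPc_prod_sin (emps m) (fun i => Uw (2 * p) w i)
      have h2 := TPc_smul ((psi m : ℂ) * bb ^ (2 * p - (emps m).card)) h1
      have e1 : (fun u => (psi m : ℂ) * Os (Uw (2 * p) w) u m) =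
          fun u => (psi m : ℂ) * bb ^ (2 * p - (emps m).card) * ∏ i ∈ emps m, sin (u - Uw (2 * p) w i) := by
        funext u
        rw [Os_eq hm, mul_assoc]
      rw [e1]
      by_cases hk' : k = 0
      · have hA := hk0.1 hk'
        subst hk'
        have e2 : (emps m).card = 2 * p - l := by omega
        have e3 : 2 * p - (emps m).card = l := by omega
        rw [if_pos hA]
        rw [e3] at h2 ⊢
        have e4 : ∏ i ∈ emps m, (exp (-(I * Uw (2 * p) w i)) / (2 * I)) = (1 / (2 * I)) ^ (2 * p - l) * ph m := by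
          rw [← e2, hph]
          simp only [div_eq_mul_inv, one_mul, Finset.prod_mul_distrib, Finset.prod_const]
          ring
        rw [e2, e4] at h2
        have e5 : K * ((psi m : ℂ) * ph m) = (psi m : ℂ) * bb ^ l * ((1 / (2 * I)) ^ (2 * p - l) * ph m) := by
          rw [hK]; ring
        rw [e5]
        exact h2
      · have hA : ¬ Arcless m := fun h => hk' (hk0.2 h)
        rw [if_neg hA]
        have h3 := TPc_lift h2 k (Nat.pos_of_ne_zero hk')
        have e2 : (emps m).card + 2 * k = 2 * p - l := by omega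
        rw [e2] at h3
        exact h3
    · have hA : ¬ Arcless m := fun h => hm h.1
      rw [if_neg hA]
      refine ⟨fun _ => 0, rfl, fun u => ?_⟩
      rw [hsupp m hm]
      simp [tp]
  have hsum := TPc_sum (Finset.univ : Finset (Sts (2 * p) l)) (fun m _ => key m)
  obtain ⟨c, hc1, hc2⟩ := hsum
  refine ⟨c, ?_, fun u => by rw [← hc2 u]; rfl⟩
  rw [hc1]
  have e6 : (∑ m : Sts (2 * p) l, if Arcless m then K * ((psi m : ℂ) * ph m) else 0) =
      K * ∑ m : Sts (2 * p) l, if Arcless m then ((psi m : ℂ) * ph m) else 0 := by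
    rw [Finset.mul_sum]
    refine Finset.sum_congr rfl fun m _ => ?_
    split_ifs <;> simp
  rw [e6]
  have hK0 : K ≠ 0 := by
    rw [hK]
    exact mul_ne_zero (pow_ne_zero _ bb_ne_zero) (pow_ne_zero _ (by simp [Complex.I_ne_zero]))
  refine mul_ne_zero hK0 ?_
  intro h
  have h4 := congrArg Complex.re h
  rw [Complex.re_sum, Complex.zero_re] at h4
  have h5 : 0 < ∑ m : Sts (2 * p) l, (if Arcless m then ((psi m : ℂ) * ph m) else 0 : ℂ).re := by
    apply Finset.sum_pos'
    · intro m _
      split_ifs with hm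
      · rw [Complex.re_ofReal_mul]
        exact mul_nonneg (h0 m) (phase_re_pos hl hw hm).le
      · simp
    · obtain ⟨m, hm, hm'⟩ := harc
      refine ⟨m, Finset.mem_univ m, ?_⟩
      rw [if_pos hm, Complex.re_ofReal_mul]
      exact mul_pos hm' (phase_re_pos hl hw hm)
  linarith

end Pool.Agent.CYL
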