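import Pool.Agent.CYL.Def
import Pool.Agent.CYL.B.Def

/-!
CYL, interface A/PF -> B: trigonometric polynomials with top coefficient.
-/

namespace Pool.Agent.CYL

open Complex Finset
open Pool.Agent.BEX Pool.Agent.CYL.B

/-- `f` is a trigonometric polynomial of degree `n` with top coefficient `t`. -/
def TPc (n : ℕ) (f : ℂ → ℂ) (t : ℂ) : Prop := ∃ c : ℕ → ℂ, c n = t ∧ ∀ u, f u = tp n c u

theorem TPc_add {n : ℕ} {f g : ℂ → ℂ} {s t : ℂ} (hf : TPc n f s) (hg : TPc n g t) :
    TPc n (fun u => f u + g u) (s + t) := by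
  obtain ⟨c, hc, hc'⟩ := hf
  obtain ⟨d, hd, hd'⟩ := hg
  refine ⟨fun j => c j + d j, by simp only [hc, hd], fun u => ?_⟩
  simp only [hc', hd', tp, add_mul, sum_add_distrib]

theorem TPc_smul {n : ℕ} {f : ℂ → ℂ} {s : ℂ} (a : ℂ) (hf : TPc n f s) :
    TPc n (fun u => a * f u) (a * s) := by
  obtain ⟨c, hc, hc'⟩ := hf
  refine ⟨fun j => a * c j, by simp only [hc], fun u => ?_⟩
  simp only [hc', tp, mul_sum, mul_assoc]

theorem TPc_sum {n : ℕ} {ι : Type*} (S : Finset ι) {f : ι → ℂ → ℂ} {s : ι → ℂ}
    (hf : ∀ i ∈ S, TPc n (f i) (s i)) : TPc n (fun u => ∑ i ∈ S, f i u) (∑ i ∈ S, s i) := by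
  classical
  induction S using Finset.induction_on with
  | empty =>
    refine ⟨fun _ => 0, by simp, fun u => by simp [tp]⟩
  | insert i S hi ih =>
    have h1 := TPc_add (hf i (mem_insert_self i S)) (ih (fun j hj => hf j (mem_insert_of_mem hj)))
    simpa only [sum_insert hi] using h1

/-- multiplication by `sin (u - a)` raises the degree by one. -/
theorem TPc_mul_sin {n : ℕ} {f : ℂ → ℂ} {s : ℂ} (a : ℂ) (hf : TPc n f s) :
    TPc (n + 1) (fun u => sin (u - a) * f u) (exp (-(I * a)) / (2 * I) * s) := by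
  obtain ⟨c, hc, hc'⟩ := hf
  refine ⟨fun j => (if j = 0 then 0 else exp (-(I * a)) / (2 * I) * c (j - 1)) -
    (if j ≤ n then exp (I * a) / (2 * I) * c j else 0), ?_, fun u => ?_⟩
  · simp [hc]
  · have h1 : sin (u - a) = exp (-(I * a)) / (2 * I) * exp (I * u) -
        exp (I * a) / (2 * I) * exp (-(I * u)) := by
      have e1 : exp (-(I * a)) / (2 * I) * exp (I * u) = exp ((u - a) * I) / (2 * I) := by
        rw [div_mul_eq_mul_div, ← exp_add]
        congr 2
        ring
      have e2 : exp (I * a) / (2 * I) * exp (-(I * u)) = exp (-(u - a) * I) / (2 * I) := by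
        rw [div_mul_eq_mul_div, ← exp_add]
        congr 2
        ring
      rw [e1, e2, sin]
      have hI : (2 * I) ≠ 0 := by simp
      field_simp
      rw [I_sq]
      ring
    change sin (u - a) * f u = _
    rw [h1, hc']
    unfold tp
    simp only [sub_mul, sum_sub_distrib]
    congr 1
    · rw [sum_range_succ' _ (n + 1)]
      simp only [if_true, zero_mul, add_zero, mul_sum]
      apply sum_congr rfl
      intro j _
      rw [if_neg (Nat.succ_ne_zero j)]
      have e : exp (I * ((2 * ((j + 1 : ℕ) : ℂ)) - ((n + 1 : ℕ) : ℂ)) * u) =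
          exp (I * u) * exp (I * ((2 * j : ℂ) - n) * u) := by
        rw [← exp_add]
        congr 1
        push_cast
        ring
      rw [e, Nat.add_sub_cancel]
      ring
    · rw [sum_range_succ _ (n + 1), if_neg (by omega), zero_mul, add_zero, mul_sum]
      apply sum_congr rfl
      intro j hj
      rw [if_pos (by have := mem_range.1 hj; omega)]
      have e : exp (I * ((2 * (j : ℂ)) - ((n + 1 : ℕ) : ℂ)) * u) =
          exp (-(I * u)) * exp (I * ((2 * j : ℂ) - n) * u) := by
        rw [← exp_add]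
        congr 1
        push_cast
        ring
      rw [e]
      ring

theorem TPc_prod_sin {ι : Type*} (S : Finset ι) (a : ι → ℂ) :
    TPc S.card (fun u => ∏ i ∈ S, sin (u - a i)) (∏ i ∈ S, (exp (-(I * a i)) / (2 * I))) := by
  classical
  induction S using Finset.induction_on with
  | empty =>
    refine ⟨fun _ => 1, by simp, fun u => by simp [tp]⟩
  | insert i S hi ih =>
    rw [card_insert_of_notMem hi]
    have h1 := TPc_mul_sin (a i) ih
    simpa only [prod_insert hi] using h1

private theorem TPc_lift_one {n : ℕ} {f : ℂ → ℂ} {s : ℂ} (hf : TPc n f s) :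
    TPc (n + 2) f 0 := by
  obtain ⟨c, hc, hc'⟩ := hf
  refine ⟨fun j => if j = 0 then 0 else if j ≤ n + 1 then c (j - 1) else 0, ?_, fun u => ?_⟩
  · simp
  · rw [hc']
    unfold tp
    rw [sum_range_succ _ (n + 2), sum_range_succ' _ (n + 1)]
    simp only [if_true, zero_mul, add_zero]
    rw [if_neg (by omega), if_neg (by omega), zero_mul, add_zero]
    apply sum_congr rfl
    intro j hj
    have hj' := mem_range.1 hj
    rw [if_neg (Nat.succ_ne_zero j), if_pos (by omega), Nat.add_sub_cancel]
    congr 2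
    push_cast
    ring

/-- degree `n` is degree `n + 2 k` with top coefficient `0` for `k > 0`. -/
theorem TPc_lift {n : ℕ} {f : ℂ → ℂ} {s : ℂ} (hf : TPc n f s) (k : ℕ) (hk : 0 < k) :
    TPc (n + 2 * k) f 0 := by
  obtain ⟨k, rfl⟩ : ∃ k', k = k' + 1 := ⟨k - 1, by omega⟩
  clear hk
  induction k with
  | zero => exact TPc_lift_one hf
  | succ k ih => exact TPc_lift_one ih

end Pool.Agent.CYL
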