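import Mathlib
import Pool.Agent.CYL.B.Homot
import Pool.Agent.CYL.B.Start

/-!
# CYL, part B: `H(p)` implies `H(2 p)` (helper32)
-/

namespace Pool.Agent.CYL.B

/-- **part B** -/
theorem main_B {p m l : ℕ} (D : BData p m l) (qh : ℂ → ℂ) (hB : BLim D qh) (m1 : ℕ) (h : p = m1 + l)
    (hq : HB p m1 qh) : HB (2 * p) m (D.q 0) := by
  obtain ⟨w, hw, hG⟩ := start D hB h hq
  exact hb_of_start D hw hG

end Pool.Agent.CYL.B
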