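import Mathlib

/-!
# CYL, part B: the start of the homotopy, outer roots (note 3181, B3)

`sign_change`: the limit function `c sinh(y)^p prod sinh(y - v_i)` changes its sign at `v_j` if `v_j ≠ 0`.
`ev_root`: a real root of every nearby function close to `v_j`.
-/

namespace Pool.Agent.CYL.B.St

open Filter Topology

theorem sinh_mul_sinh_pos {a b : ℝ} (h : 0 < a * b) : 0 < Real.sinh a * Real.sinh b := by
  rcases mul_pos_iff.mp h with ⟨ha, hb⟩ | ⟨ha, hb⟩
  · exact mul_pos (Real.sinh_pos_iff.mpr ha) (Real.sinh_pos_iff.mpr hb)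
  · exact mul_pos_of_neg_of_neg (Real.sinh_neg_iff.mpr ha) (Real.sinh_neg_iff.mpr hb)

theorem mul_pos_of_abs {x δ : ℝ} (hδ : 0 < δ) (h : δ < |x|) : 0 < (x - δ) * (x + δ) := by
  have h1 : (x - δ) * (x + δ) = |x| ^ 2 - δ ^ 2 := by rw [sq_abs]; ring
  rw [h1]
  have h2 : δ ^ 2 < |x| ^ 2 := by
    apply pow_lt_pow_left₀ h hδ.le (by norm_num)
  linarith

/-- the limit function -/
noncomputable def gs (p : ℕ) {k : ℕ} (v : Fin k → ℝ) (c : ℝ) (y : ℝ) : ℝ :=
  c * Real.sinh y ^ p * ∏ i, Real.sinh (y - v i)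

theorem sign_change {p k : ℕ} {v : Fin k → ℝ} {c : ℝ} (hc : c ≠ 0) {j : Fin k} {δ : ℝ} (hδ : 0 < δ)
    (h0 : δ < |v j|) (h1 : ∀ i, i ≠ j → δ < |v j - v i|) :
    gs p v c (v j - δ) * gs p v c (v j + δ) < 0 := by
  have e : gs p v c (v j - δ) * gs p v c (v j + δ) =
      c ^ 2 * (Real.sinh (v j - δ) * Real.sinh (v j + δ)) ^ p *
        ∏ i, (Real.sinh (v j - δ - v i) * Real.sinh (v j + δ - v i)) := by
    unfold gs
    rw [Finset.prod_mul_distrib, mul_pow]
    ring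
  rw [e]
  have hA : 0 < c ^ 2 := by positivity
  have hB : 0 < (Real.sinh (v j - δ) * Real.sinh (v j + δ)) ^ p :=
    pow_pos (sinh_mul_sinh_pos (mul_pos_of_abs hδ h0)) p
  have hC : ∏ i, (Real.sinh (v j - δ - v i) * Real.sinh (v j + δ - v i)) < 0 := by
    rw [← Finset.mul_prod_erase Finset.univ _ (Finset.mem_univ j)]
    have h2 : Real.sinh (v j - δ - v j) * Real.sinh (v j + δ - v j) < 0 := by
      have e1 : v j - δ - v j = -δ := by ring
      have e2 : v j + δ - v j = δ := by ring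
      rw [e1, e2, Real.sinh_neg]
      have := Real.sinh_pos_iff.mpr hδ
      nlinarith
    refine mul_neg_of_neg_of_pos h2 (Finset.prod_pos fun i hi => ?_)
    have hi' := Finset.ne_of_mem_erase hi
    refine sinh_mul_sinh_pos ?_
    have e1 : v j - δ - v i = (v j - v i) - δ := by ring
    have e2 : v j + δ - v i = (v j - v i) + δ := by ring
    rw [e1, e2]
    exact mul_pos_of_abs hδ (h1 i hi')
  exact mul_neg_of_pos_of_neg (mul_pos hA hB) hC

/-- a root near a sign change of the limit -/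
theorem ev_root {ι : Type*} {F : Filter ι} {g : ι → ℝ → ℝ} {g0 : ℝ → ℝ} {a b : ℝ} (hab : a ≤ b)
    (hg : ∀ n, Continuous (g n)) (ha : Tendsto (fun n => g n a) F (𝓝 (g0 a)))
    (hb : Tendsto (fun n => g n b) F (𝓝 (g0 b))) (h : g0 a * g0 b < 0) :
    ∀ᶠ n in F, ∃ y ∈ Set.Ioo a b, g n y = 0 := by
  have h1 : ∀ᶠ n in F, g n a * g n b < 0 := (ha.mul hb).eventually_lt_const h
  filter_upwards [h1] with n hn
  have hc : ContinuousOn (g n) (Set.Icc a b) := (hg n).continuousOn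
  rcases mul_neg_iff.mp hn with ⟨h2, h3⟩ | ⟨h2, h3⟩
  · obtain ⟨y, hy, h4⟩ := intermediate_value_Ioo' hab hc (show (0 : ℝ) ∈ Set.Ioo (g n b) (g n a) from ⟨h3, h2⟩)
    exact ⟨y, hy, h4⟩
  · obtain ⟨y, hy, h4⟩ := intermediate_value_Ioo hab hc (show (0 : ℝ) ∈ Set.Ioo (g n a) (g n b) from ⟨h2, h3⟩)
    exact ⟨y, hy, h4⟩

/-- monotone choice of preimages (first hitting points) -/
theorem mono_select {f : ℝ → ℝ} {d a : ℝ} (hd : 0 < d) (hf : ContinuousOn f (Set.Icc (-d) d))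
    (h1 : f (-d) < -a) (h2 : a < f d) : ∃ r : ℝ → ℝ,
    (∀ t, |t| ≤ a → r t ∈ Set.Ioo (-d) d ∧ f (r t) = t) ∧
    ∀ s t, |s| ≤ a → |t| ≤ a → s < t → r s < r t := by
  set S : ℝ → Set ℝ := fun t => Set.Icc (-d) d ∩ f ⁻¹' (Set.Ici t) with hS
  have hcl : ∀ t, IsClosed (S t) := fun t => hf.preimage_isClosed_of_isClosed isClosed_Icc isClosed_Ici
  have hbd : ∀ t, BddBelow (S t) := fun t => ⟨-d, fun y hy => hy.1.1⟩
  have hne : ∀ t, |t| ≤ a → (S t).Nonempty := fun t ht =>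
    ⟨d, ⟨⟨by linarith, le_refl _⟩, by
      show t ≤ f d
      have := (abs_le.mp ht).2
      linarith⟩⟩
  have hkey : ∀ t, |t| ≤ a → sInf (S t) ∈ Set.Ioo (-d) d ∧ f (sInf (S t)) = t := by
    intro t ht
    have ht' := abs_le.mp ht
    have hmem := (hcl t).csInf_mem (hne t ht) (hbd t)
    obtain ⟨hm1, hm2⟩ := hmem
    have hm2' : t ≤ f (sInf (S t)) := hm2
    have heq : f (sInf (S t)) = t := by
      by_contra hne'
      have hlt : t < f (sInf (S t)) := lt_of_le_of_ne hm2' (Ne.symm hne')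
      have hsub : Set.Icc (-d) (sInf (S t)) ⊆ Set.Icc (-d) d := Set.Icc_subset_Icc_right hm1.2
      have h3 : t ∈ Set.Ioo (f (-d)) (f (sInf (S t))) := ⟨by linarith, hlt⟩
      obtain ⟨y, hy, hy2⟩ := intermediate_value_Ioo hm1.1 (hf.mono hsub) h3
      have hyS : y ∈ S t := ⟨hsub ⟨hy.1.le, hy.2.le⟩, by show t ≤ f y; exact hy2.ge⟩
      have := csInf_le (hbd t) hyS
      linarith [hy.2]
    refine ⟨⟨lt_of_le_of_ne hm1.1 ?_, lt_of_le_of_ne hm1.2 ?_⟩, heq⟩
    · intro h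
      rw [← h] at heq
      linarith
    · intro h
      rw [h] at heq
      linarith
  refine ⟨fun t => sInf (S t), hkey, ?_⟩
  intro s t hs ht hst
  have hsub : S t ⊆ S s := fun y hy => ⟨hy.1, by
    have h3 : t ≤ f y := hy.2
    show s ≤ f y
    linarith⟩
  have hle : sInf (S s) ≤ sInf (S t) := csInf_le_csInf (hbd s) (hne t ht) hsub
  refine lt_of_le_of_ne hle ?_
  intro h
  have h4 := (hkey s hs).2
  have h5 := (hkey t ht).2
  have h6 : sInf (S s) = sInf (S t) := h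
  rw [h6, h5] at h4
  linarith

/-- values of an odd continuous function -/
theorem odd_values {f : ℝ → ℝ} {d a t : ℝ} (hd : 0 ≤ d) (hf : ContinuousOn f (Set.Icc (-d) d))
    (hodd : f (-d) = - f d) (ha : a < f d) (ht : |t| ≤ a) : ∃ y ∈ Set.Ioo (-d) d, f y = t := by
  have h1 := abs_le.mp ht
  have h2 : t ∈ Set.Ioo (f (-d)) (f d) := by
    rw [hodd]
    exact ⟨by linarith, by linarith⟩
  obtain ⟨y, hy, h3⟩ := intermediate_value_Ioo (by linarith) hf h2
  exact ⟨y, hy, h3⟩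

end Pool.Agent.CYL.B.St
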