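import Mathlib
import Pool.Agent.CYL.B.Def
import Pool.Agent.CYL.B.Start1

/-!
# CYL, part B: the start of the homotopy, phases (note 3181, B3)

`zero_iff`: `B + (-1)^m conj B = 0` in terms of the phase of `B`.
`eq_of_int`: two continuous functions which differ by integers and agree at `0`.
`arg_*`: the phase of a function `F` with `F(-y) = conj F(y)` near a point where `F ≠ 0`.
-/

namespace Pool.Agent.CYL.B.St

open Filter Topology Complex ComplexConjugate

/-- `exp(i π t)` -/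
noncomputable def ep (t : ℝ) : ℂ := Complex.exp ((Real.pi * t : ℝ) * I)

theorem ep_add (s t : ℝ) : ep (s + t) = ep s * ep t := by
  unfold ep
  rw [← Complex.exp_add]
  congr 1
  push_cast
  ring

theorem ep_zero : ep 0 = 1 := by simp [ep]

theorem conj_ep (t : ℝ) : conj (ep t) = ep (-t) := by
  unfold ep
  rw [← Complex.exp_conj]
  congr 1
  rw [map_mul, Complex.conj_I, Complex.conj_ofReal]
  push_cast
  ring

theorem ep_ne (t : ℝ) : ep t ≠ 0 := Complex.exp_ne_zero _

theorem norm_ep (t : ℝ) : ‖ep t‖ = 1 := Complex.norm_exp_ofReal_mul_I _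

theorem ep_eq_iff (s t : ℝ) : ep s = ep t ↔ ∃ k : ℤ, s = t + 2 * k := by
  unfold ep
  rw [Complex.exp_eq_exp_iff_exists_int]
  have hpi : (Real.pi : ℂ) ≠ 0 := by exact_mod_cast Real.pi_ne_zero
  constructor
  · rintro ⟨k, hk⟩
    refine ⟨k, ?_⟩
    have h1 : ((Real.pi * s : ℝ) : ℂ) = ((Real.pi * (t + 2 * k) : ℝ) : ℂ) := by
      have h2 : (((Real.pi * s : ℝ) : ℂ) - ((Real.pi * (t + 2 * k) : ℝ) : ℂ)) * I = 0 := by
        rw [sub_mul, hk]
        push_cast
        ring
      rcases mul_eq_zero.mp h2 with h | h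
      · exact sub_eq_zero.mp h
      · exact absurd h I_ne_zero
    have h3 : Real.pi * s = Real.pi * (t + 2 * k) := by exact_mod_cast h1
    exact mul_left_cancel₀ Real.pi_ne_zero h3
  · rintro ⟨k, hk⟩
    refine ⟨k, ?_⟩
    rw [hk]
    push_cast
    ring

theorem neg_one_pow_eq (m : ℕ) : ((-1 : ℂ)) ^ m = ep m := by
  induction m with
  | zero => simp [ep_zero]
  | succ k ih =>
    rw [pow_succ, ih]
    push_cast
    rw [ep_add]
    congr 1
    simp [ep]

/-- `B + (-1)^m conj B = 0` for `B = ρ exp(iπt)` -/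
theorem zero_iff {ρ t : ℝ} (hρ : ρ ≠ 0) (m : ℕ) :
    (ρ : ℂ) * ep t + (-1) ^ m * conj ((ρ : ℂ) * ep t) = 0 ↔ ∃ k : ℤ, t = ((m : ℝ) + 1) / 2 + k := by
  have hρ' : (ρ : ℂ) ≠ 0 := by exact_mod_cast hρ
  rw [map_mul, Complex.conj_ofReal, conj_ep, neg_one_pow_eq]
  have e : (ρ : ℂ) * ep t + ep m * ((ρ : ℂ) * ep (-t)) = (ρ : ℂ) * ep (-t) * (ep (2 * t) - ep ((m : ℝ) + 1)) := by
    have h1 : ep t = ep (-t) * ep (2 * t) := by rw [← ep_add]; congr 1; ring
    have h2 : ep ((m : ℝ) + 1) = - ep m := by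
      rw [ep_add]
      have h3 : ep 1 = -1 := by simp [ep]
      rw [h3]; ring
    rw [h1, h2]
    ring
  rw [e]
  rw [mul_eq_zero]
  have h3 : (ρ : ℂ) * ep (-t) ≠ 0 := mul_ne_zero hρ' (ep_ne _)
  constructor
  · rintro (h | h)
    · exact absurd h h3
    · obtain ⟨k, hk⟩ := (ep_eq_iff _ _).mp (sub_eq_zero.mp h)
      exact ⟨k, by linarith⟩
  · rintro ⟨k, hk⟩
    right
    rw [sub_eq_zero]
    exact (ep_eq_iff _ _).mpr ⟨k, by linarith⟩

/-- a continuous integer valued function which vanishes at `0` -/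
theorem eq_zero_of_int {f : ℝ → ℝ} {d : ℝ} (hf : ContinuousOn f (Set.Icc (-d) d))
    (h0 : f 0 = 0) (hint : ∀ y ∈ Set.Icc (-d) d, ∃ k : ℤ, f y = k) : ∀ y ∈ Set.Icc (-d) d, f y = 0 := by
  intro y hy
  have hd : 0 ≤ d := by have := hy.1.trans hy.2; linarith
  have h0m : (0 : ℝ) ∈ Set.Icc (-d) d := ⟨by linarith, hd⟩
  by_contra hne
  obtain ⟨k, hk⟩ := hint y hy
  have hk0 : k ≠ 0 := by
    rintro rfl
    simp at hk
    exact hne hk
  have hpre : (f '' Set.Icc (-d) d).OrdConnected := (isPreconnected_Icc.image f hf).ordConnected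
  have hm1 : f y ∈ f '' Set.Icc (-d) d := ⟨y, hy, rfl⟩
  have hm0 : (0 : ℝ) ∈ f '' Set.Icc (-d) d := ⟨0, h0m, h0⟩
  rcases lt_or_gt_of_ne hk0 with h | h
  · have h1 : (k : ℝ) ≤ -1 := by exact_mod_cast Int.le_sub_one_of_lt h
    have h2 : (-(1 / 2) : ℝ) ∈ f '' Set.Icc (-d) d := hpre.out hm1 hm0 ⟨by rw [hk]; linarith, by norm_num⟩
    obtain ⟨z, hz, hz2⟩ := h2
    obtain ⟨j, hj⟩ := hint z hz
    rw [hj] at hz2
    have h3 : (2 * j : ℝ) = -1 := by linarith
    have h4 : (2 * j : ℤ) = -1 := by exact_mod_cast h3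
    omega
  · have h1 : (1 : ℝ) ≤ k := by exact_mod_cast h
    have h2 : ((1 / 2) : ℝ) ∈ f '' Set.Icc (-d) d := hpre.out hm0 hm1 ⟨by norm_num, by rw [hk]; linarith⟩
    obtain ⟨z, hz, hz2⟩ := h2
    obtain ⟨j, hj⟩ := hint z hz
    rw [hj] at hz2
    have h3 : (2 * j : ℝ) = 1 := by linarith
    have h4 : (2 * j : ℤ) = 1 := by exact_mod_cast h3
    omega

/-- two continuous functions which differ by integers and agree at `0` -/
theorem eq_of_int {f g : ℝ → ℝ} {d : ℝ} (hf : ContinuousOn f (Set.Icc (-d) d))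
    (hg : ContinuousOn g (Set.Icc (-d) d)) (h0 : f 0 = g 0)
    (hint : ∀ y ∈ Set.Icc (-d) d, ∃ k : ℤ, f y = g y + k) : ∀ y ∈ Set.Icc (-d) d, f y = g y := by
  intro y hy
  have h1 := eq_zero_of_int (f := fun y => f y - g y) (hf.sub hg) (by simp [h0]) (by
    intro z hz
    obtain ⟨k, hk⟩ := hint z hz
    exact ⟨k, by simp [hk]⟩) y hy
  exact sub_eq_zero.mp h1

/-! ### the phase near a point where the function does not vanish -/

/-- the number of the phase of `F y / F 0` -/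
noncomputable def ph (F : ℝ → ℂ) (y : ℝ) : ℝ := Complex.arg (F y / F 0) / Real.pi

theorem ph_spec (F : ℝ → ℂ) (h0 : F 0 ≠ 0) (y : ℝ) : F y = F 0 * (‖F y / F 0‖ * ep (ph F y)) := by
  have h1 : (‖F y / F 0‖ : ℂ) * ep (ph F y) = F y / F 0 := by
    unfold ep ph
    have e : Real.pi * (Complex.arg (F y / F 0) / Real.pi) = Complex.arg (F y / F 0) := by
      field_simp
    rw [e]
    exact Complex.norm_mul_exp_arg_mul_I _
  rw [h1]
  field_simp

theorem ph_zero (F : ℝ → ℂ) (h0 : F 0 ≠ 0) : ph F 0 = 0 := by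
  unfold ph
  rw [div_self h0]
  simp

theorem ph_continuousOn {F : ℝ → ℂ} {s : Set ℝ} (hF : ContinuousOn F s)
    (hs : ∀ y ∈ s, F y / F 0 ∈ Complex.slitPlane) : ContinuousOn (ph F) s := by
  unfold ph
  refine ContinuousOn.div_const (fun y hy => ?_) _
  have h1 : ContinuousWithinAt (fun y => F y / F 0) s y := (hF.div_const (F 0)) y hy
  exact ContinuousAt.comp_continuousWithinAt (f := fun y => F y / F 0) (Complex.continuousAt_arg (hs y hy)) h1

theorem ph_neg {F : ℝ → ℂ} (hc : ∀ y, F (-y) = conj (F y)) {y : ℝ}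
    (hs : F y / F 0 ∈ Complex.slitPlane) : ph F (-y) = - ph F y := by
  unfold ph
  have h0 : conj (F 0) = F 0 := by
    have := hc 0
    rw [neg_zero] at this
    exact this.symm
  have h1 : F (-y) / F 0 = conj (F y / F 0) := by
    rw [map_div₀, h0, hc]
  rw [h1, Complex.arg_conj, if_neg (Complex.slitPlane_arg_ne_pi hs)]
  ring

/-! ### the phase of `sin (a + i y)` -/

theorem sin_re_im (a y : ℝ) : Complex.sin (a + I * y) =
    (Real.sin a * Real.cosh y : ℝ) + (Real.cos a * Real.sinh y : ℝ) * I := by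
  rw [mul_comm I (y : ℂ), Complex.sin_add, Complex.cos_mul_I, Complex.sin_mul_I]
  push_cast
  ring

theorem sin_ep {a : ℝ} (ha : 0 < Real.sin a) (y : ℝ) :
    ∃ ρ : ℝ, 0 < ρ ∧ Complex.sin (a + I * y) = ρ * ep (th a y / (2 * Real.pi)) := by
  set x := Real.sin a * Real.cosh y with hx
  have hx0 : 0 < x := mul_pos ha (Real.cosh_pos y)
  set t := Real.arctan (Real.cos a / Real.sin a * Real.tanh y) with ht
  have hcos : 0 < Real.cos t := Real.cos_arctan_pos _
  refine ⟨x / Real.cos t, div_pos hx0 hcos, ?_⟩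
  have e1 : ep (th a y / (2 * Real.pi)) = (Real.cos t : ℂ) + (Real.sin t : ℂ) * I := by
    unfold ep th
    have e2 : Real.pi * (2 * Real.arctan (Real.cos a / Real.sin a * Real.tanh y) / (2 * Real.pi)) = t := by
      rw [ht]
      field_simp
    rw [e2, Complex.exp_mul_I, Complex.ofReal_cos, Complex.ofReal_sin]
  rw [e1, sin_re_im]
  have h2 : Real.sin t = Real.cos t * (Real.cos a / Real.sin a * Real.tanh y) := by
    have h3 := Real.tan_arctan (Real.cos a / Real.sin a * Real.tanh y)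
    rw [← ht, Real.tan_eq_sin_div_cos, div_eq_iff hcos.ne'] at h3
    rw [h3]; ring
  have h4 : Real.cos a * Real.sinh y = x / Real.cos t * Real.sin t := by
    rw [h2, hx, Real.tanh_eq_sinh_div_cosh]
    field_simp
  rw [h4, ← hx]
  have hcos' : (Real.cos t : ℂ) ≠ 0 := by exact_mod_cast hcos.ne'
  have e5 : ((x / Real.cos t : ℝ) : ℂ) * (Real.cos t : ℂ) = x := by
    rw [← Complex.ofReal_mul, div_mul_cancel₀ _ hcos.ne']
  have e6 : ((x / Real.cos t * Real.sin t : ℝ) : ℂ) = ((x / Real.cos t : ℝ) : ℂ) * (Real.sin t : ℂ) := by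
    push_cast
    ring
  rw [e6, mul_add, e5]
  ring

theorem th_neg (a y : ℝ) : th a (-y) = - th a y := by
  unfold th
  rw [Real.tanh_neg, mul_neg, Real.arctan_neg]
  ring

theorem th_zero (a : ℝ) : th a 0 = 0 := by simp [th]

theorem Th_neg (y : ℝ) : Th (-y) = - Th y := by
  unfold Th
  rw [th_neg, th_neg]
  ring

theorem sin_la_pos {a : ℝ} (h1 : 0 < a) (h2 : a < 3 * la) : 0 < Real.sin a := by
  apply Real.sin_pos_of_pos_of_lt_pi h1
  have : 3 * la < Real.pi := by
    unfold la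
    linarith [Real.pi_pos]
  linarith

theorem la_pos : 0 < la := by
  unfold la
  positivity

/-- phase of `sin (la + i y) sin (i y - 2 la)` -/
theorem two_sin (y : ℝ) : ∃ ρ : ℝ, 0 < ρ ∧
    Complex.sin (la + I * y) * Complex.sin (-(2 * la) + I * y) = (-1) * (ρ * ep (-(Th y / (2 * Real.pi)))) := by
  obtain ⟨ρ1, h1, e1⟩ := sin_ep (sin_la_pos la_pos (by linarith [la_pos])) y
  obtain ⟨ρ2, h2, e2⟩ := sin_ep (a := 2 * la) (sin_la_pos (by linarith [la_pos]) (by linarith [la_pos])) (-y)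
  refine ⟨ρ1 * ρ2, mul_pos h1 h2, ?_⟩
  have e3 : Complex.sin (-(2 * la) + I * y) = - Complex.sin ((2 * la : ℝ) + I * (-y : ℝ)) := by
    rw [← Complex.sin_neg]
    congr 1
    push_cast
    ring
  rw [e1, e3, e2, th_neg]
  have e4 : ep (-(Th y / (2 * Real.pi))) = ep (th la y / (2 * Real.pi)) * ep (-th (2 * la) y / (2 * Real.pi)) := by
    rw [← ep_add]
    congr 1
    unfold Th
    ring
  rw [e4]
  push_cast
  ring

theorem ep_sum {ι : Type*} (s : Finset ι) (f : ι → ℝ) : ep (∑ i ∈ s, f i) = ∏ i ∈ s, ep (f i) := by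
  classical
  induction s using Finset.induction_on with
  | empty => simp [ep_zero]
  | insert a s ha ih => rw [Finset.sum_insert ha, Finset.prod_insert ha, ep_add, ih]

theorem ep_nsmul (p : ℕ) (t : ℝ) : ep (p * t) = ep t ^ p := by
  induction p with
  | zero => simp [ep_zero]
  | succ k ih =>
    rw [pow_succ, ← ih, ← ep_add]
    congr 1
    push_cast
    ring

/-- phase of `q(la + i y) q(i y - 2 la)` for `q` with real roots -/
theorem pr_phase {k : ℕ} {c : ℝ} (hc : c ≠ 0) (v : Fin k → ℝ) (y : ℝ) : ∃ ρ : ℝ, 0 < ρ ∧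
    pr c v (la + I * y) * pr c v (-(2 * la) + I * y) =
      (-1) ^ k * (ρ * ep (-(∑ j, Th (y - v j)) / (2 * Real.pi))) := by
  choose ρ h1 h2 using fun j => two_sin (y - v j)
  refine ⟨c * c * ∏ j, ρ j, mul_pos (mul_self_pos.mpr hc) (Finset.prod_pos fun j _ => h1 j), ?_⟩
  unfold pr
  have e1 : ∀ j, Complex.sin (la + I * y - I * v j) * Complex.sin (-(2 * la) + I * y - I * v j) =
      (-1) * (ρ j * ep (-(Th (y - v j) / (2 * Real.pi)))) := by
    intro j
    rw [← h2 j]
    congr 1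
    · congr 1
      push_cast
      ring
    · congr 1
      push_cast
      ring
  have e2 : (c : ℂ) * (∏ j, Complex.sin (la + I * y - I * v j)) *
      (c * ∏ j, Complex.sin (-(2 * la) + I * y - I * v j)) =
      c * c * ∏ j, (Complex.sin (la + I * y - I * v j) * Complex.sin (-(2 * la) + I * y - I * v j)) := by
    rw [Finset.prod_mul_distrib]
    ring
  rw [e2, Finset.prod_congr rfl fun j _ => e1 j, Finset.prod_mul_distrib, Finset.prod_mul_distrib, ← ep_sum]
  have e3 : ∑ j, (-(Th (y - v j) / (2 * Real.pi))) = -(∑ j, Th (y - v j)) / (2 * Real.pi) := by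
    rw [Finset.sum_neg_distrib, ← Finset.sum_div, neg_div]
  rw [e3, Finset.prod_const, Finset.card_univ, Fintype.card_fin]
  push_cast
  ring

end Pool.Agent.CYL.B.St
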