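import Pool.Agent.CYL.B.Def

/-!
CYL, part B, (B1): the T-Q equation at `u = lam + i y`.
-/

namespace Pool.Agent.CYL.B

open Filter Topology Finset

/-- `B(y) = prod_k sin (lam + i y - U_k) q (i y + lam) q (i y - 2 lam)`. -/
noncomputable def BB {p m l : ℕ} (D : BData p m l) (w y : ℝ) : ℂ :=
  ff p w (la + Complex.I * y) * D.q w (la + Complex.I * y) * D.q w (-(2 * la) + Complex.I * y)

/-- `G(y)` of (B1). -/
noncomputable def GG {p m l : ℕ} (D : BData p m l) (w y : ℝ) : ℂ :=
  D.T w (la + Complex.I * y) * D.q w (-la + Complex.I * y)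
    - (-1) ^ l * (ff p w (la + Complex.I * y) * ff p w (Complex.I * y))
      * D.q w (-(3 * la) + Complex.I * y)

/-- `ff` is even. -/
lemma ff_neg (p : ℕ) (w : ℝ) (u : ℂ) : ff p w (-u) = ff p w u := by
  unfold ff
  congr 1
  have h1 : Complex.sin (-u - w) = - Complex.sin (u + w) := by
    rw [← Complex.sin_neg]; congr 1; ring
  have h2 : Complex.sin (-u + w) = - Complex.sin (u - w) := by
    rw [← Complex.sin_neg]; congr 1; ring
  rw [h1, h2]; ring

lemma ff_conj (p : ℕ) (w : ℝ) (u : ℂ) :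
    (starRingEnd ℂ) (ff p w u) = ff p w ((starRingEnd ℂ) u) := by
  unfold ff
  simp [map_pow, map_mul, ← Complex.sin_conj]

lemma neg_one_pow_eq {p m l : ℕ} (D : BData p m l) : ((-1 : ℂ)) ^ l = (-1) ^ m := by
  have h := D.hm
  have h1 : ((-1 : ℂ)) ^ l * (-1) ^ m = 1 := by
    rw [← pow_add, add_comm l m, ← h, pow_mul]; norm_num
  rcases neg_one_pow_eq_or ℂ m with h2 | h2 <;> rw [h2] at h1 ⊢ <;>
    rcases neg_one_pow_eq_or ℂ l with h3 | h3 <;> rw [h3] at h1 ⊢ <;> norm_num at h1

lemma neg_one_pow_sq (m : ℕ) : ((-1 : ℂ)) ^ m * (-1) ^ m = 1 := by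
  rw [← pow_add, ← two_mul, pow_mul]; norm_num

lemma BB_neg {p m l : ℕ} (D : BData p m l) {w : ℝ} (hw : w ∈ Set.Ico 0 la) (y : ℝ) :
    BB D w (-y) = (starRingEnd ℂ) (BB D w y) := by
  unfold BB
  rw [map_mul, map_mul, ff_conj, D.q_conj w hw, D.q_conj w hw]
  have h2 : (starRingEnd ℂ) 2 = 2 := Complex.conj_ofNat 2
  simp [map_add, map_mul, Complex.conj_ofReal, Complex.conj_I, h2]

lemma conj_BB {p m l : ℕ} (D : BData p m l) {w : ℝ} (hw : w ∈ Set.Ico 0 la) (y : ℝ) :
    (starRingEnd ℂ) (BB D w y) =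
      ff p w (-la + Complex.I * y) * D.q w (-la + Complex.I * y) *
        D.q w (2 * la + Complex.I * y) := by
  rw [← BB_neg D hw]
  unfold BB
  have e1 : (la : ℂ) + Complex.I * ((-y : ℝ) : ℂ) = -(-la + Complex.I * y) := by
    push_cast; ring
  have e2 : -(2 * (la : ℂ)) + Complex.I * ((-y : ℝ) : ℂ) = -(2 * la + Complex.I * y) := by
    push_cast; ring
  rw [e1, e2, ff_neg, D.q_neg w hw, D.q_neg w hw]
  have := neg_one_pow_sq m
  linear_combination (ff p w (-la + Complex.I * y) * D.q w (-la + Complex.I * y) *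
        D.q w (2 * la + Complex.I * y)) * this

lemma ff_two_ne (p : ℕ) {w : ℝ} (hw : w ∈ Set.Ico 0 la) (y : ℝ) :
    ff p w (-(2 * la) + Complex.I * y) ≠ 0 := by
  unfold ff
  apply pow_ne_zero
  have hla : la = Real.pi / 8 := rfl
  have hpi := Real.pi_pos
  have key : ∀ a : ℝ, -Real.pi < a → a < 0 → Complex.sin ((a : ℂ) + Complex.I * y) ≠ 0 := by
    intro a ha1 ha2 h0
    have h1 : Complex.sin ((a : ℂ) + Complex.I * y) =
        Complex.sin a * Complex.cosh y + Complex.cos a * Complex.sinh y * Complex.I := by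
      rw [mul_comm Complex.I, Complex.sin_add_mul_I]
    rw [h1] at h0
    have h2 := congrArg Complex.re h0
    have h3 : (Complex.sin a * Complex.cosh y + Complex.cos a * Complex.sinh y * Complex.I).re
        = Real.sin a * Real.cosh y := by
      rw [← Complex.ofReal_sin, ← Complex.ofReal_cosh, ← Complex.ofReal_cos,
        ← Complex.ofReal_sinh, Complex.add_re, ← Complex.ofReal_mul, ← Complex.ofReal_mul,
        Complex.ofReal_re, Complex.re_ofReal_mul, Complex.I_re, mul_zero, add_zero]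
    rw [h3] at h2
    have h4 : Real.sin a < 0 := Real.sin_neg_of_neg_of_neg_pi_lt ha2 ha1
    have h5 : 0 < Real.cosh y := Real.cosh_pos y
    have : Real.sin a * Real.cosh y < 0 := mul_neg_of_neg_of_pos h4 h5
    rw [h2] at this
    simp at this
  have e1 : -(2 * (la : ℂ)) + Complex.I * y - w = ((-(2 * la) - w : ℝ) : ℂ) + Complex.I * y := by
    push_cast; ring
  have e2 : -(2 * (la : ℂ)) + Complex.I * y + w = ((-(2 * la) + w : ℝ) : ℂ) + Complex.I * y := by
    push_cast; ring
  rw [e1, e2]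
  have h1 := hw.1
  have h2 := hw.2
  apply mul_ne_zero
  · apply key <;> linarith
  · apply key <;> linarith

/-- (B1). -/
theorem two {p m l : ℕ} (D : BData p m l) {w : ℝ} (hw : w ∈ Set.Ico 0 la) (y : ℝ) :
    D.q w (Complex.I * y) * GG D w y =
      ff p w (-(2 * la) + Complex.I * y) *
        (BB D w y + (-1) ^ m * (starRingEnd ℂ) (BB D w y)) := by
  have h := D.tq w hw (la + Complex.I * y)
  have hl := neg_one_pow_eq D
  rw [conj_BB D hw]
  have e1 : (la : ℂ) + Complex.I * y - la = Complex.I * y := by ring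
  have e2 : (la : ℂ) + Complex.I * y - 2 * la = -la + Complex.I * y := by ring
  have e3 : (la : ℂ) + Complex.I * y - 3 * la = -(2 * la) + Complex.I * y := by ring
  have e4 : (la : ℂ) + Complex.I * y + la = 2 * la + Complex.I * y := by ring
  have e5 : (la : ℂ) + Complex.I * y - 4 * la = -(3 * la) + Complex.I * y := by ring
  rw [e1, e2, e3, e4, e5] at h
  unfold GG BB
  rw [← hl]
  linear_combination h

/-- A real zero of `q` gives a zero of `B + (-1)^m conj B`. -/
theorem BB_zero_of_root {p m l : ℕ} (D : BData p m l) {w : ℝ} (hw : w ∈ Set.Ico 0 la) {y : ℝ}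
    (h : D.q w (Complex.I * y) = 0) : BB D w y + (-1) ^ m * (starRingEnd ℂ) (BB D w y) = 0 := by
  have h1 := two D hw y
  rw [h, zero_mul] at h1
  rcases mul_eq_zero.mp h1.symm with h2 | h2
  · exact absurd h2 (ff_two_ne p hw y)
  · exact h2

/-- Conversely if `G(y) ≠ 0`. -/
theorem root_of_BB_zero {p m l : ℕ} (D : BData p m l) {w : ℝ} (hw : w ∈ Set.Ico 0 la) {y : ℝ}
    (hG : GG D w y ≠ 0) (h : BB D w y + (-1) ^ m * (starRingEnd ℂ) (BB D w y) = 0) :
    D.q w (Complex.I * y) = 0 := by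
  have h1 := two D hw y
  rw [h, mul_zero] at h1
  rcases mul_eq_zero.mp h1 with h2 | h2
  · exact h2
  · exact absurd h2 hG

end Pool.Agent.CYL.B
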