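import Pool.Agent.CYL.B.Coef
import Pool.Agent.CYL.B.Two
import Pool.Agent.CYL.B.Trig
import Pool.Agent.CYL.B.Start2

/-!
# CYL, part B: the start of the homotopy, limits (note 3181, B3)
-/

namespace Pool.Agent.CYL.B.St

open Filter Topology Complex ComplexConjugate

/-- pointwise convergence of trigonometric polynomials gives joint convergence -/
theorem q_joint {p m l : ℕ} (D : BData p m l) {w : ℕ → ℝ} (hw : ∀ n, w n ∈ Set.Ico 0 la)
    {qs : ℂ → ℂ} (h : ∀ u, Tendsto (fun n => D.q (w n) u) atTop (𝓝 (qs u))) (u0 : ℂ) :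
    Tendsto (fun x : ℕ × ℂ => D.q (w x.1) x.2) (atTop ×ˢ 𝓝 u0) (𝓝 (qs u0)) := by
  obtain ⟨c, d, h1, h2, h3⟩ := tp_limit (m := m) (f := fun n => D.q (w n)) (g := qs)
    (fun n => by
      obtain ⟨c, -, hc⟩ := D.q_tp (w n) (hw n)
      exact ⟨c, hc⟩) h
  rw [h2 u0]
  have e : (fun x : ℕ × ℂ => D.q (w x.1) x.2) = fun x : ℕ × ℂ =>
      ∑ j ∈ Finset.range (m + 1), c x.1 j * Complex.exp (Complex.I * ((2 * j : ℂ) - m) * x.2) := by
    funext x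
    rw [h1 x.1 x.2]
    rfl
  rw [e]
  unfold tp
  refine tendsto_finsetSum _ fun j _ => Tendsto.mul ((h3 j).comp tendsto_fst) ?_
  have hcont : Continuous fun u : ℂ => Complex.exp (Complex.I * ((2 * j : ℂ) - m) * u) := by fun_prop
  exact (hcont.tendsto u0).comp tendsto_snd

theorem q_continuous {p m l : ℕ} (D : BData p m l) {w : ℝ} (hw : w ∈ Set.Ico 0 la) :
    Continuous (D.q w) := by
  obtain ⟨c, -, hc⟩ := D.q_tp w hw
  have e : D.q w = fun u => tp m c u := by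
    funext u
    exact hc u
  rw [e]
  unfold tp
  fun_prop

/-- the points `a + i y` -/
theorem pt_tendsto (a : ℂ) (y0 : ℝ) :
    Tendsto (fun x : ℕ × ℝ => (x.1, a + I * (x.2 : ℂ))) (atTop ×ˢ 𝓝 y0) (atTop ×ˢ 𝓝 (a + I * (y0 : ℂ))) := by
  refine Tendsto.prodMk tendsto_fst ?_
  have hcont : Continuous fun y : ℝ => a + I * (y : ℂ) := by fun_prop
  exact (hcont.tendsto y0).comp tendsto_snd

theorem q_joint' {p m l : ℕ} (D : BData p m l) {w : ℕ → ℝ} (hw : ∀ n, w n ∈ Set.Ico 0 la)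
    {qs : ℂ → ℂ} (h : ∀ u, Tendsto (fun n => D.q (w n) u) atTop (𝓝 (qs u))) (a : ℂ) (y0 : ℝ) :
    Tendsto (fun x : ℕ × ℝ => D.q (w x.1) (a + I * x.2)) (atTop ×ˢ 𝓝 y0) (𝓝 (qs (a + I * y0))) :=
  (q_joint D hw h (a + I * y0)).comp (pt_tendsto a y0)

/-- the function `F` with `B = sin (la - w + i y)^p F` -/
noncomputable def FF {p m l : ℕ} (D : BData p m l) (w y : ℝ) : ℂ :=
  Complex.sin (((la + w : ℝ) : ℂ) + I * y) ^ p * D.q w (la + I * y) * D.q w (-(2 * la) + I * y)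

theorem BB_eq {p m l : ℕ} (D : BData p m l) (w y : ℝ) :
    BB D w y = Complex.sin (((la - w : ℝ) : ℂ) + I * y) ^ p * FF D w y := by
  unfold BB FF ff
  have e1 : (la : ℂ) + I * y - w = ((la - w : ℝ) : ℂ) + I * y := by push_cast; ring
  have e2 : (la : ℂ) + I * y + w = ((la + w : ℝ) : ℂ) + I * y := by push_cast; ring
  rw [e1, e2, mul_pow]
  ring

theorem FF_neg {p m l : ℕ} (D : BData p m l) {w : ℝ} (hw : w ∈ Set.Ico 0 la) (y : ℝ) :
    FF D w (-y) = conj (FF D w y) := by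
  unfold FF
  rw [map_mul, map_mul, map_pow, D.q_conj w hw, D.q_conj w hw, ← Complex.sin_conj]
  have h2 : (starRingEnd ℂ) 2 = 2 := Complex.conj_ofNat 2
  simp [map_add, map_mul, Complex.conj_ofReal, Complex.conj_I, h2]

theorem FF_continuous {p m l : ℕ} (D : BData p m l) {w : ℝ} (hw : w ∈ Set.Ico 0 la) :
    Continuous (FF D w) := by
  unfold FF
  have h := q_continuous D hw
  fun_prop

/-- the limit of `F` -/
noncomputable def FS (p : ℕ) (qs : ℂ → ℂ) (y : ℝ) : ℂ :=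
  Complex.sin (((2 * la : ℝ) : ℂ) + I * y) ^ p * qs (la + I * y) * qs (-(2 * la) + I * y)

theorem w_tendsto {w : ℕ → ℝ} (hl : Tendsto w atTop (𝓝 la)) (y0 : ℝ) :
    Tendsto (fun x : ℕ × ℝ => (w x.1, x.2)) (atTop ×ˢ 𝓝 y0) (𝓝 (la, y0)) := by
  rw [nhds_prod_eq]
  exact Tendsto.prodMk (hl.comp tendsto_fst) tendsto_snd

theorem FF_joint {p m l : ℕ} (D : BData p m l) {w : ℕ → ℝ} (hw : ∀ n, w n ∈ Set.Ico 0 la)
    (hl : Tendsto w atTop (𝓝 la))
    {qs : ℂ → ℂ} (h : ∀ u, Tendsto (fun n => D.q (w n) u) atTop (𝓝 (qs u))) (y0 : ℝ) :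
    Tendsto (fun x : ℕ × ℝ => FF D (w x.1) x.2) (atTop ×ˢ 𝓝 y0) (𝓝 (FS p qs y0)) := by
  unfold FF FS
  refine Tendsto.mul (Tendsto.mul (Tendsto.pow ?_ p) (q_joint' D hw h _ y0)) (q_joint' D hw h _ y0)
  have hcont : Continuous fun x : ℝ × ℝ => Complex.sin (((la + x.1 : ℝ) : ℂ) + I * x.2) := by fun_prop
  have h1 := (hcont.tendsto (la, y0)).comp (w_tendsto hl y0)
  have e : Complex.sin (((la + la : ℝ) : ℂ) + I * y0) = Complex.sin (((2 * la : ℝ) : ℂ) + I * y0) := by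
    congr 2
    push_cast
    ring
  simp only [] at h1
  rw [e] at h1
  exact h1

theorem ff_cont (p : ℕ) (a : ℂ) : Continuous fun x : ℝ × ℝ => ff p x.1 (a + I * (x.2 : ℂ)) := by
  unfold ff
  refine Continuous.pow (Continuous.mul ?_ ?_) p
  · exact Complex.continuous_sin.comp ((continuous_const.add (continuous_const.mul
      (Complex.continuous_ofReal.comp continuous_snd))).sub (Complex.continuous_ofReal.comp continuous_fst))
  · exact Complex.continuous_sin.comp ((continuous_const.add (continuous_const.mul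
      (Complex.continuous_ofReal.comp continuous_snd))).add (Complex.continuous_ofReal.comp continuous_fst))

theorem ff_joint (p : ℕ) {w : ℕ → ℝ} (hl : Tendsto w atTop (𝓝 la)) (a : ℂ) (y0 : ℝ) :
    Tendsto (fun x : ℕ × ℝ => ff p (w x.1) (a + I * x.2)) (atTop ×ˢ 𝓝 y0) (𝓝 (ff p la (a + I * y0))) :=
  Filter.Tendsto.comp (g := fun x : ℝ × ℝ => ff p x.1 (a + I * (x.2 : ℂ)))
    (f := fun x : ℕ × ℝ => (w x.1, x.2)) ((ff_cont p a).tendsto (la, y0)) (w_tendsto hl y0)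

/-- `G ≠ 0` near `(lam, 0)` -/
theorem GG_ne {p m l : ℕ} (D : BData p m l) {w : ℕ → ℝ} (hw : ∀ n, w n ∈ Set.Ico 0 la)
    (hl : Tendsto w atTop (𝓝 la)) (hp : p ≠ 0)
    {qs : ℂ → ℂ} (h : ∀ u, Tendsto (fun n => D.q (w n) u) atTop (𝓝 (qs u)))
    (hqs : qs (-la) ≠ 0)
    {δ c0 : ℝ} (hδ : 0 < δ) (hc0 : 0 < c0)
    (hT : ∀ᶠ n in atTop, ∀ u : ℂ, ‖u - la‖ ≤ δ → c0 ≤ ‖D.T (w n) u‖) :
    ∀ᶠ x : ℕ × ℝ in atTop ×ˢ 𝓝 0, GG D (w x.1) x.2 ≠ 0 := by
  have hA := q_joint' D hw h (-la) 0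
  have hB : Tendsto (fun x : ℕ × ℝ => (-1 : ℂ) ^ l * (ff p (w x.1) (la + I * x.2) * ff p (w x.1) (I * x.2))
      * D.q (w x.1) (-(3 * la) + I * x.2)) (atTop ×ˢ 𝓝 0) (𝓝 0) := by
    have h1 := ff_joint p hl la 0
    have h2 := ff_joint p hl 0 0
    have h3 := q_joint' D hw h (-(3 * la)) 0
    have h4 := ((tendsto_const_nhds (x := (-1 : ℂ) ^ l)).mul (h1.mul h2)).mul h3
    have e1 : ff p la ((la : ℂ) + I * ((0 : ℝ) : ℂ)) = 0 := by
      unfold ff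
      simp [hp]
    rw [e1, zero_mul, mul_zero, zero_mul] at h4
    simpa using h4
  have e0 : (-la : ℂ) + I * ((0 : ℝ) : ℂ) = -la := by simp
  rw [e0] at hA
  have hpos : 0 < ‖qs (-la)‖ := norm_pos_iff.mpr hqs
  have h1 : ∀ᶠ x : ℕ × ℝ in atTop ×ˢ 𝓝 0, ‖qs (-la)‖ / 2 < ‖D.q (w x.1) (-la + I * x.2)‖ :=
    (hA.norm).eventually_const_lt (by linarith)
  have h2 : ∀ᶠ x : ℕ × ℝ in atTop ×ˢ 𝓝 0, ‖(-1 : ℂ) ^ l * (ff p (w x.1) (la + I * x.2) * ff p (w x.1) (I * x.2))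
      * D.q (w x.1) (-(3 * la) + I * x.2)‖ < c0 * (‖qs (-la)‖ / 2) := by
    refine (hB.norm).eventually_lt_const ?_
    rw [norm_zero]
    positivity
  have h3 : ∀ᶠ x : ℕ × ℝ in atTop ×ˢ 𝓝 0, ∀ u : ℂ, ‖u - la‖ ≤ δ → c0 ≤ ‖D.T (w x.1) u‖ :=
    tendsto_fst.eventually hT
  have h4 : ∀ᶠ x : ℕ × ℝ in atTop ×ˢ 𝓝 0, |x.2| < δ := by
    have : ∀ᶠ y : ℝ in 𝓝 0, |y| < δ := by
      exact (show Tendsto (fun y : ℝ => |y|) (𝓝 0) (𝓝 0) by simpa using continuous_abs.tendsto (0 : ℝ)).eventually_lt_const hδ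
    exact tendsto_snd.eventually this
  filter_upwards [h1, h2, h3, h4] with x hx1 hx2 hx3 hx4 hG
  have hT' : c0 ≤ ‖D.T (w x.1) (la + I * x.2)‖ := by
    apply hx3
    have e : (la : ℂ) + I * x.2 - la = I * x.2 := by ring
    rw [e, norm_mul, Complex.norm_I, one_mul, Complex.norm_real, Real.norm_eq_abs]
    exact hx4.le
  unfold GG at hG
  have hG' := sub_eq_zero.mp hG
  rw [← hG', norm_mul] at hx2
  have : c0 * (‖qs (-la)‖ / 2) ≤ ‖D.T (w x.1) (la + I * x.2)‖ * ‖D.q (w x.1) (-la + I * x.2)‖ :=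
    mul_le_mul hT' hx1.le (by positivity) (norm_nonneg _)
  linarith

end Pool.Agent.CYL.B.St
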