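import Pool.Agent.CYL.B.Start4

/-!
# CYL, part B: the start of the homotopy, outer roots and their numbers (note 3181, B3)
-/

namespace Pool.Agent.CYL.B.St

open Filter Topology

/-- extension to `ℕ` -/
noncomputable def VV {k : ℕ} (v : Fin k → ℝ) (i : ℕ) : ℝ := if h : i < k then v ⟨i, h⟩ else 0

/-- the limits of the roots -/
noncomputable def us (p : ℕ) {m1 : ℕ} (v : Fin m1 → ℝ) (j : ℕ) : ℝ :=
  if 2 * j + 1 < m1 then VV v j else if 2 * j + 1 ≤ m1 + 2 * p then 0 else VV v (j - p)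

theorem VV_fin {k : ℕ} (v : Fin k → ℝ) (i : Fin k) : VV v i = v i := by
  unfold VV
  rw [dif_pos i.2]

theorem VV_of_lt {k : ℕ} (v : Fin k → ℝ) {i : ℕ} (h : i < k) : VV v i = v ⟨i, h⟩ := by
  unfold VV
  rw [dif_pos h]

theorem v_neg {k : ℕ} {v : Fin k → ℝ} (hv : StrictMono v) (hs : ∀ j, v (Fin.rev j) = - v j) {i : Fin k}
    (hi : 2 * (i : ℕ) + 1 < k) : v i < 0 := by
  have h1 : i < Fin.rev i := by
    rw [Fin.lt_def, Fin.val_rev]
    omega
  have h2 := hv h1
  rw [hs] at h2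
  linarith

theorem v_pos {k : ℕ} {v : Fin k → ℝ} (hv : StrictMono v) (hs : ∀ j, v (Fin.rev j) = - v j) {i : Fin k}
    (hi : k < 2 * (i : ℕ) + 1) : 0 < v i := by
  have h1 : Fin.rev i < i := by
    rw [Fin.lt_def, Fin.val_rev]
    omega
  have h2 := hv h1
  rw [hs] at h2
  linarith

theorem v_mid {k : ℕ} {v : Fin k → ℝ} (hs : ∀ j, v (Fin.rev j) = - v j) {i : Fin k}
    (hi : 2 * (i : ℕ) + 1 = k) : v i = 0 := by
  have h1 : Fin.rev i = i := by
    apply Fin.ext
    rw [Fin.val_rev]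
    omega
  have h2 := hs i
  rw [h1] at h2
  linarith

/-- classification of the indices -/
theorem us_cases {p m1 : ℕ} {v : Fin m1 → ℝ} (hv : StrictMono v) (hs : ∀ j, v (Fin.rev j) = - v j)
    {j : ℕ} (hj : j < p + m1) :
    (m1 ≤ 2 * j + 1 ∧ 2 * j + 1 ≤ m1 + 2 * p ∧ us p v j = 0) ∨
    (2 * j + 1 < m1 ∧ ∃ i : Fin m1, (i : ℕ) = j ∧ us p v j = v i ∧ v i < 0) ∨
    (m1 + 2 * p < 2 * j + 1 ∧ ∃ i : Fin m1, (i : ℕ) + p = j ∧ us p v j = v i ∧ 0 < v i) := by
  by_cases h1 : 2 * j + 1 < m1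
  · right; left
    refine ⟨h1, ⟨j, by omega⟩, rfl, ?_, v_neg hv hs (by simpa using h1)⟩
    unfold us
    rw [if_pos h1, VV_of_lt]
  · by_cases h2 : 2 * j + 1 ≤ m1 + 2 * p
    · left
      refine ⟨by omega, h2, ?_⟩
      unfold us
      rw [if_neg h1, if_pos h2]
    · right; right
      refine ⟨by omega, ⟨j - p, by omega⟩, by simp; omega, ?_, v_pos hv hs (by simp; omega)⟩
      unfold us
      rw [if_neg h1, if_neg h2, VV_of_lt]

theorem sum_us {p m1 : ℕ} {v : Fin m1 → ℝ} (hs : ∀ j, v (Fin.rev j) = - v j) (f : ℝ → ℝ) :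
    ∑ k : Fin (p + m1), f (us p v k) = p * f 0 + ∑ i : Fin m1, f (v i) := by
  rw [Fin.sum_univ_eq_sum_range (fun k => f (us p v k)) (p + m1)]
  have e1 : ∑ i : Fin m1, f (v i) = ∑ i ∈ Finset.range m1, f (VV v i) := by
    rw [← Fin.sum_univ_eq_sum_range (fun k => f (VV v k)) m1]
    exact Finset.sum_congr rfl fun i _ => by rw [VV_fin]
  rw [e1]
  obtain ⟨a, ha⟩ : ∃ a, a = m1 / 2 := ⟨_, rfl⟩
  obtain ⟨b, hb⟩ : ∃ b, m1 = a + b := ⟨m1 - a, by omega⟩
  have e2 : p + m1 = a + (p + b) := by omega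
  have e3 : Finset.range m1 = Finset.range (a + b) := by rw [← hb]
  rw [e2, e3, Finset.sum_range_add, Finset.sum_range_add, Finset.sum_range_add]
  have s1 : ∑ x ∈ Finset.range a, f (us p v x) = ∑ x ∈ Finset.range a, f (VV v x) := by
    refine Finset.sum_congr rfl fun x hx => ?_
    have hx' := Finset.mem_range.mp hx
    unfold us
    rw [if_pos (by omega)]
  have s2 : ∑ x ∈ Finset.range p, f (us p v (a + x)) = p * f 0 := by
    rw [Finset.sum_congr rfl (g := fun _ => f 0)]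
    · rw [Finset.sum_const, Finset.card_range, nsmul_eq_mul]
    · intro x hx
      have hx' := Finset.mem_range.mp hx
      unfold us
      rw [if_neg (by omega), if_pos (by omega)]
  have s3 : ∑ x ∈ Finset.range b, f (us p v (a + (p + x))) = ∑ x ∈ Finset.range b, f (VV v (a + x)) := by
    refine Finset.sum_congr rfl fun x hx => ?_
    have hx' := Finset.mem_range.mp hx
    unfold us
    rw [if_neg (by omega)]
    by_cases h : 2 * (a + (p + x)) + 1 ≤ m1 + 2 * p
    · rw [if_pos h]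
      have h1 : a + x < m1 := by omega
      rw [VV_of_lt v h1, v_mid hs (i := ⟨a + x, h1⟩) (by simp; omega)]
    · rw [if_neg h]
      congr 2
      omega
  rw [s1, s2, s3]
  ring

/-- small `d` separates -/
theorem ev_sep {m1 : ℕ} {v : Fin m1 → ℝ} (hv : StrictMono v) : ∀ᶠ d in 𝓝[>] (0 : ℝ),
    (∀ i, v i ≠ 0 → 2 * d < |v i|) ∧ ∀ i k, i ≠ k → 2 * d < |v i - v k| := by
  have key : ∀ x : ℝ, 0 < |x| → ∀ᶠ d in 𝓝[>] (0 : ℝ), 2 * d < |x| := by
    intro x hx
    have : ∀ᶠ d in 𝓝 (0 : ℝ), d < |x| / 2 := eventually_lt_nhds (by positivity)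
    filter_upwards [this.filter_mono nhdsWithin_le_nhds] with d hd
    linarith
  have h1 : ∀ᶠ d in 𝓝[>] (0 : ℝ), ∀ i, v i ≠ 0 → 2 * d < |v i| := by
    rw [Filter.eventually_all]
    intro i
    by_cases h : v i = 0
    · exact Eventually.of_forall fun d h2 => absurd h h2
    · filter_upwards [key (v i) (abs_pos.mpr h)] with d hd _
      exact hd
  have h2 : ∀ᶠ d in 𝓝[>] (0 : ℝ), ∀ i k, i ≠ k → 2 * d < |v i - v k| := by
    rw [Filter.eventually_all]
    intro i
    rw [Filter.eventually_all]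
    intro k
    by_cases h : i = k
    · exact Eventually.of_forall fun d h2 => absurd h h2
    · filter_upwards [key (v i - v k) (abs_pos.mpr (sub_ne_zero.mpr (hv.injective.ne h)))] with d hd _
      exact hd
  exact h1.and h2

/-- gaps between the limits -/
theorem us_gap {p m1 : ℕ} {v : Fin m1 → ℝ} (hv : StrictMono v) (hs : ∀ j, v (Fin.rev j) = - v j)
    {d : ℝ} (h1 : ∀ i, v i ≠ 0 → 2 * d < |v i|) (h2 : ∀ i k, i ≠ k → 2 * d < |v i - v k|)
    {j k : ℕ} (hj : j < p + m1) (hk : k < p + m1) (hjk : j < k)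
    (hn : ¬ ((m1 ≤ 2 * j + 1 ∧ 2 * j + 1 ≤ m1 + 2 * p) ∧ (m1 ≤ 2 * k + 1 ∧ 2 * k + 1 ≤ m1 + 2 * p))) :
    us p v j + 2 * d ≤ us p v k := by
  have hlt : ∀ i i' : Fin m1, (i : ℕ) < i' → v i + 2 * d ≤ v i' := by
    intro i i' h
    have h3 : i < i' := h
    have h4 := h2 i i' h3.ne
    rw [abs_of_neg (by linarith [hv h3])] at h4
    linarith
  rcases us_cases (p := p) hv hs hj with ⟨a1, a2, a3⟩ | ⟨a1, i, a2, a3, a4⟩ | ⟨a1, i, a2, a3, a4⟩
  · rcases us_cases (p := p) hv hs hk with ⟨b1, b2, b3⟩ | ⟨b1, i', b2, b3, b4⟩ | ⟨b1, i', b2, b3, b4⟩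
    · exact absurd ⟨⟨a1, a2⟩, ⟨b1, b2⟩⟩ hn
    · omega
    · have h5 := h1 i' b4.ne'
      rw [abs_of_pos b4] at h5
      rw [a3, b3]
      linarith
  · have h6 := h1 i a4.ne
    rw [abs_of_neg a4] at h6
    rcases us_cases (p := p) hv hs hk with ⟨b1, b2, b3⟩ | ⟨b1, i', b2, b3, b4⟩ | ⟨b1, i', b2, b3, b4⟩
    · rw [a3, b3]
      linarith
    · rw [a3, b3]
      exact hlt i i' (by omega)
    · rw [a3, b3]
      linarith
  · rcases us_cases (p := p) hv hs hk with ⟨b1, b2, b3⟩ | ⟨b1, i', b2, b3, b4⟩ | ⟨b1, i', b2, b3, b4⟩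
    · omega
    · omega
    · rw [a3, b3]
      exact hlt i i' (by omega)

/-- the part of `Z` which is continuous at `w = lam` -/
theorem est_reg {p m1 : ℕ} {v : Fin m1 → ℝ} (hs : ∀ j, v (Fin.rev j) = - v j)
    {w : ℕ → ℝ} (hl : Tendsto w atTop (𝓝 la)) (j : Fin (p + m1)) :
    ∀ᶠ d in 𝓝[>] (0 : ℝ), ∀ᶠ n in atTop, ∀ r : Fin (p + m1) → ℝ, (∀ k, |r k - us p v k| < d) →
      |(p * th (la + w n) (r j) - ∑ k, Th (r j - r k)) - ZH p v (us p v j)| < 1 := by
  have hη : (0 : ℝ) < 1 / (2 * (p + 1)) := by positivity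
  have hsin : Real.sin (2 * la) ≠ 0 := (sin_la_pos (by linarith [la_pos]) (by linarith [la_pos])).ne'
  have hc := (th_continuousAt (a := 2 * la) (y := us p v j) hsin)
  obtain ⟨ε, hε, hε2⟩ := Metric.continuousAt_iff.mp hc _ hη
  have e1 : ∀ᶠ d in 𝓝[>] (0 : ℝ), d < ε := (eventually_lt_nhds hε).filter_mono nhdsWithin_le_nhds
  have e2 : ∀ᶠ d in 𝓝[>] (0 : ℝ), d < (1 : ℝ) / (12 * ((p : ℝ) + m1 + 1)) :=
    (eventually_lt_nhds (by positivity)).filter_mono nhdsWithin_le_nhds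
  filter_upwards [e1, e2, self_mem_nhdsWithin] with d hd1 hd2 hd3
  have hd0 : 0 < d := hd3
  have e3 : ∀ᶠ n in atTop, dist (w n) la < ε := (Metric.tendsto_nhds.mp hl) ε hε
  filter_upwards [e3] with n hn r hr
  -- the first term
  have f1 : |th (la + w n) (r j) - th (2 * la) (us p v j)| < 1 / (2 * (p + 1)) := by
    have h1 := @hε2 (la + w n, r j) (by
      rw [Prod.dist_eq, max_lt_iff]
      refine ⟨?_, ?_⟩
      · show dist (la + w n) (2 * la) < ε
        have e : la + w n - 2 * la = w n - la := by ring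
        rw [Real.dist_eq, e, ← Real.dist_eq]
        exact hn
      · show dist (r j) (us p v j) < ε
        rw [Real.dist_eq]
        exact (hr j).trans hd1)
    rw [Real.dist_eq] at h1
    exact h1
  have f2 : |(p : ℝ) * th (la + w n) (r j) - p * th (2 * la) (us p v j)| < 1 / 2 := by
    rw [← mul_sub, abs_mul, Nat.abs_cast]
    have hp0 : (0 : ℝ) ≤ p := Nat.cast_nonneg p
    calc (p : ℝ) * |th (la + w n) (r j) - th (2 * la) (us p v j)| ≤ p * (1 / (2 * (p + 1))) :=
          mul_le_mul_of_nonneg_left f1.le hp0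
      _ < 1 / 2 := by
          rw [mul_one_div, div_lt_div_iff₀ (by positivity) (by norm_num)]
          linarith
  -- the second term
  have f3 : |∑ k, Th (r j - r k) - ∑ k : Fin (p + m1), Th (us p v j - us p v k)| < 1 / 2 := by
    rw [← Finset.sum_sub_distrib]
    have h1 : ∀ k : Fin (p + m1), |Th (r j - r k) - Th (us p v j - us p v k)| ≤ 6 * d := by
      intro k
      refine (Th_lipschitz _ _).trans ?_
      have h2 : |r j - r k - (us p v j - us p v k)| ≤ |r j - us p v j| + |r k - us p v k| := by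
        have e : r j - r k - (us p v j - us p v k) = (r j - us p v j) - (r k - us p v k) := by ring
        rw [e]
        exact abs_sub _ _
      have h3 := hr j
      have h4 := hr k
      linarith
    have h2 : |∑ k, (Th (r j - r k) - Th (us p v j - us p v k))| ≤ (p + m1 : ℝ) * (6 * d) := by
      refine (Finset.abs_sum_le_sum_abs _ _).trans ?_
      refine (Finset.sum_le_sum fun k _ => h1 k).trans ?_
      rw [Finset.sum_const, Finset.card_univ, Fintype.card_fin, nsmul_eq_mul]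
      push_cast
      exact le_refl _
    refine lt_of_le_of_lt h2 ?_
    rw [lt_div_iff₀ (by positivity)] at hd2
    have h5 : (0 : ℝ) ≤ p + m1 := by positivity
    nlinarith
  have f4 : ∑ k : Fin (p + m1), Th (us p v j - us p v k) = p * Th (us p v j) + ∑ i, Th (us p v j - v i) := by
    have := sum_us (p := p) hs (fun x => Th (us p v j - x))
    simpa using this
  have f5 : ZH p v (us p v j) = p * th (2 * la) (us p v j) - ∑ k : Fin (p + m1), Th (us p v j - us p v k) := by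
    rw [f4]
    unfold ZH
    have : Th (us p v j) = th (2 * la) (us p v j) - th la (us p v j) := rfl
    rw [this]
    ring
  rw [f5]
  have f6 := abs_lt.mp f2
  have f7 := abs_lt.mp f3
  rw [abs_lt]
  constructor <;> linarith

/-- the singular part -/
theorem est_sing {p : ℕ} {w : ℕ → ℝ} (hw : ∀ n, w n ∈ Set.Ico 0 la) (hl : Tendsto w atTop (𝓝 la))
    {b : ℝ} (hb : 0 < b) : ∀ᶠ n in atTop, ∀ y, b ≤ y →
      |p * th (la - w n) y - p * Real.pi| < 1 ∧ |p * th (la - w n) (-y) + p * Real.pi| < 1 := by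
  have hη : (0 : ℝ) < 1 / (p + 1) := by positivity
  obtain ⟨ε0, hε0, hth⟩ := th_eps_tendsto hb hη
  have hlw : ∀ᶠ n in atTop, la - w n < ε0 := by
    have h1 : Tendsto (fun n => la - w n) atTop (𝓝 (la - la)) := tendsto_const_nhds.sub hl
    rw [sub_self] at h1
    exact h1.eventually_lt_const hε0
  filter_upwards [hlw] with n hn y hy
  obtain ⟨h1, h2⟩ := hth (la - w n) (by linarith [(hw n).2]) hn y hy
  have hp0 : (0 : ℝ) ≤ p := Nat.cast_nonneg p
  have h3 : |p * th (la - w n) y - p * Real.pi| < 1 := by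
    rw [← mul_sub, abs_mul, Nat.abs_cast]
    have h4 : |th (la - w n) y - Real.pi| ≤ 1 / (p + 1) := by
      rw [abs_le]
      constructor <;> linarith
    calc (p : ℝ) * |th (la - w n) y - Real.pi| ≤ p * (1 / (p + 1)) := mul_le_mul_of_nonneg_left h4 hp0
      _ < 1 := by
          rw [mul_one_div, div_lt_one (by positivity)]
          linarith
  refine ⟨h3, ?_⟩
  rw [th_neg]
  have e : (p : ℝ) * -th (la - w n) y + p * Real.pi = -(p * th (la - w n) y - p * Real.pi) := by ring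
  rw [e, abs_neg]
  exact h3

end Pool.Agent.CYL.B.St
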